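import Pool.Agent.Work.MP_8a95ee_gt.Npc.Walls

/-!
# Nonpositively curved cubulations: statements of the items, part 1

median graphs, walls, cubes, the space, the quotient, the fundamental cycle
-/

set_option autoImplicit false

namespace MP8a95ee.Npc

open Classical

/-! ### MG: from median graphs to walls -/

/-- MG1: adjacent vertices have different distances from every vertex -/
def S_MG1 : Prop := ∀ (X : SimpleGraph ℕ) (_ : IsMedianGraph X) (x a : ℕ) (_ : X.Adj x a) (z : ℕ),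
  X.dist z a = X.dist z x + 1 ∨ X.dist z x = X.dist z a + 1

/-- the vertices which are closer to `x` than to `a` -/
def half (X : SimpleGraph ℕ) (x a : ℕ) : Set ℕ := {z | X.dist z x < X.dist z a}

/-- convex sets of vertices -/
def Conv (X : SimpleGraph ℕ) (A : Set ℕ) : Prop :=
  ∀ z ∈ A, ∀ z' ∈ A, ∀ w, X.dist z w + X.dist w z' = X.dist z z' → w ∈ A

/-- MG2: all edges between the two sides define the same sides -/
def S_MG2 : Prop := ∀ (X : SimpleGraph ℕ) (_ : IsMedianGraph X) (x a y b : ℕ) (_ : X.Adj x a)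
  (_ : X.Adj y b), y ∈ half X x a → b ∉ half X x a → half X y b = half X x a

/-- MG3: sides are convex -/
def S_MG3 : Prop := ∀ (X : SimpleGraph ℕ) (_ : IsMedianGraph X) (x a : ℕ) (_ : X.Adj x a),
  Conv X (half X x a)

/-- MG4: Helly property -/
def S_MG4 : Prop := ∀ (X : SimpleGraph ℕ) (_ : IsMedianGraph X) (S : Finset (Set ℕ)),
  (∀ A ∈ S, Conv X A) → (∀ A ∈ S, ∀ B ∈ S, (A ∩ B).Nonempty) → ∃ z, ∀ A ∈ S, z ∈ A

/-- MG5: the walls -/
def S_MG5 : Prop := ∀ (X : SimpleGraph ℕ) (_ : IsMedianGraph X), Nonempty (WS X)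

/-! ### WA: properties of walls -/

/-- WA1: among the walls that separate `x` from the far side of `h` there is one next to `x` -/
def S_WA1 : Prop := ∀ (X : SimpleGraph ℕ) (_ : IsMedianGraph X) (D : WS X) (h : D.H) (x y : ℕ),
  D.Sep h x y → ∃ a, X.Adj x a ∧ ∀ z, D.Sep h x z → D.Sep (D.wall x a) x z

/-- WA2: distances and separation -/
def S_WA2 : Prop := ∀ (X : SimpleGraph ℕ) (_ : IsMedianGraph X) (D : WS X),
  (∀ x a v, X.Adj x a → (X.dist a v < X.dist x v ↔ D.Sep (D.wall x a) x v)) ∧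
  (∀ x y, (∀ h, ¬ D.Sep h x y) → x = y) ∧
  (∀ x a b, X.Adj x a → X.Adj x b → D.wall x a = D.wall x b → a = b)

/-- WA3: squares and crossing walls -/
def S_WA3 : Prop := ∀ (X : SimpleGraph ℕ) (_ : IsMedianGraph X) (D : WS X) (x a b : ℕ),
  X.Adj x a → X.Adj x b → a ≠ b →
  (Square X x a b ↔ ∃ v, D.Sep (D.wall x a) x v ∧ D.Sep (D.wall x b) x v) ∧
  (Square X x a b ↔ D.Cross (D.wall x a) (D.wall x b)) ∧
  (∀ y, y ≠ x → X.Adj a y → X.Adj b y → D.wall x a = D.wall b y ∧ D.wall x b = D.wall a y)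

/-- WA4: a family of pairwise crossing walls is not larger than the degree -/
def S_WA4 : Prop := ∀ (X : SimpleGraph ℕ) (_ : IsMedianGraph X) (_ : LocFin X) (D : WS X) (N : ℕ),
  (∀ x, (nbr X x).card ≤ N) → ∀ w : Fin (N + 1) → D.H, ¬ ∀ i j, i ≠ j → D.Cross (w i) (w j)

/-- WA5: a wall next to `x` and `y` crosses all walls that separate `x` and `y` -/
def S_WA5 : Prop := ∀ (X : SimpleGraph ℕ) (_ : IsMedianGraph X) (D : WS X) (x a y b : ℕ) (h : D.H),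
  X.Adj x a → X.Adj y b → D.wall x a = D.wall y b → ¬ D.Sep (D.wall x a) x y → D.Sep h x y →
  D.Cross (D.wall x a) h

/-- WA6: walls and corners of cubes -/
def S_WA6 : Prop := ∀ (X : SimpleGraph ℕ) (_ : IsMedianGraph X) (_ : LocFin X) (D : WS X) (x : ℕ)
  (s : Finset ℕ), s ∈ link X x → ∀ h, D.Sep h x (corner X x s) ↔ ∃ a ∈ s, h = D.wall x a

/-! ### CU: cubes -/

/-- the neighbour of the corner `corner X x T` in direction `a` of a cube with corner `x` -/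
noncomputable def rb (X : SimpleGraph ℕ) (x : ℕ) (T : Finset ℕ) (a : ℕ) : ℕ :=
  corner X x (symmDiff T {a})

/-- CU1 -/
def S_CU1 : Prop := ∀ (X : SimpleGraph ℕ) (_ : IsMedianGraph X) (_ : LocFin X) (x : ℕ)
  (s : Finset ℕ), s ∈ link X x →
  corner X x ∅ = x ∧ (∀ a ∈ s, corner X x {a} = a) ∧
  (∀ T ⊆ s, ∀ U ⊆ s, corner X x T = corner X x U → T = U) ∧
  (∀ T ⊆ s, ∀ a ∈ s, ∀ b ∈ s, rb X x T a = rb X x T b → a = b) ∧
  (∀ T ⊆ s, ∀ a ∈ s, X.Adj (corner X x T) (rb X x T a)) ∧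
  ∀ D : WS X, ∀ T ⊆ s, ∀ a ∈ s, D.wall (corner X x T) (rb X x T a) = D.wall x a

/-- CU2 -/
def S_CU2 : Prop := ∀ (X : SimpleGraph ℕ) (_ : IsMedianGraph X) (_ : LocFin X) (x : ℕ)
  (s : Finset ℕ), s ∈ link X x → ∀ T ⊆ s, ∀ U ⊆ s,
  In X (corner X x T) (corner X x U) = (symmDiff T U).image (rb X x T)

/-- CU3 -/
def S_CU3 : Prop := ∀ (X : SimpleGraph ℕ) (_ : IsMedianGraph X) (_ : LocFin X) (x : ℕ)
  (s : Finset ℕ), s ∈ link X x → ∀ T ⊆ s, s.image (rb X x T) ∈ link X (corner X x T) ∧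
  ∀ U ⊆ s, corner X (corner X x T) (U.image (rb X x T)) = corner X x (symmDiff T U)

/-- CU4: a vertex outside a cube -/
def S_CU4 : Prop := ∀ (X : SimpleGraph ℕ) (_ : IsMedianGraph X) (_ : LocFin X) (x : ℕ)
  (s : Finset ℕ), s ∈ link X x → ∀ z, (∀ T ⊆ s, z ≠ corner X x T) →
  ∃ a, ∀ T ⊆ s, a ∈ In X z (corner X x T)

/-- `g` is an automorphism of `X` -/
def IsAut (X : SimpleGraph ℕ) (g : Equiv.Perm ℕ) : Prop := ∀ x y, X.Adj (g x) (g y) ↔ X.Adj x y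

/-- CU5: automorphisms -/
def S_CU5 : Prop := ∀ (X : SimpleGraph ℕ) (_ : IsMedianGraph X) (_ : LocFin X)
  (g : Equiv.Perm ℕ) (_ : IsAut X g),
  (∀ x y, X.dist (g x) (g y) = X.dist x y) ∧
  (∀ x, nbr X (g x) = (nbr X x).image g) ∧
  (∀ x a b, Square X (g x) (g a) (g b) ↔ Square X x a b) ∧
  (∀ x s, s.image g ∈ link X (g x) ↔ s ∈ link X x) ∧
  (∀ x v, In X (g x) (g v) = (In X x v).image g) ∧
  (∀ x, ∀ s ∈ link X x, corner X (g x) (s.image g) = g (corner X x s)) ∧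
  (∀ x, ∀ s ∈ link X x, ∀ q y, cubePt X (g x) (s.image g) q (g y) = cubePt X x s (fun a => q (g a)) y)

/-! ### PT: points of the space -/

/-- the weight of the corner `T` -/
noncomputable def wt (s T : Finset ℕ) (q : ℕ → ℝ) : ℝ := (∏ a ∈ T, q a) * ∏ a ∈ s \ T, (1 - q a)

/-- PT1 -/
def S_PT1 : Prop := ∀ (X : SimpleGraph ℕ) (_ : IsMedianGraph X) (_ : LocFin X) (x : ℕ)
  (s : Finset ℕ), s ∈ link X x → ∀ q : ℕ → ℝ, (∀ a, 0 ≤ q a ∧ q a ≤ 1) →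
  (∀ y, 0 ≤ cubePt X x s q y) ∧ (∀ y, cubePt X x s q y ≠ 0 → y ∈ cubeSet X x s) ∧
  (∀ T ⊆ s, cubePt X x s q (corner X x T) = wt s T q) ∧
  ∑ y ∈ cubeSet X x s, cubePt X x s q y = 1

/-- PT2: faces of cubes -/
def S_PT2 : Prop := ∀ (X : SimpleGraph ℕ) (_ : IsMedianGraph X) (_ : LocFin X) (x : ℕ)
  (s : Finset ℕ), s ∈ link X x → ∀ q : ℕ → ℝ, ∀ a ∈ s,
  (q a = 0 → cubePt X x s q = cubePt X x (s.erase a) q) ∧
  (q a = 1 → ∀ q' : ℕ → ℝ, (∀ b ∈ s.erase a, q' (corner X x {a, b}) = q b) →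
    cubePt X x s q = cubePt X a ((s.erase a).image fun b => corner X x {a, b}) q')

/-- PT3: the action on the space -/
def S_PT3 : Prop := ∀ (X : SimpleGraph ℕ) (_ : IsMedianGraph X) (_ : LocFin X)
  (Γ : Subgroup (Equiv.Perm ℕ)) (F : Finset ℕ) (_ : IsDeck X Γ F),
  (∀ g ∈ Γ, ∀ u ∈ space X, (fun y => u (g y)) ∈ space X) ∧
  (∀ g ∈ Γ, ∀ x, g x = x → g = 1) ∧
  (∀ g ∈ Γ, ∀ x, ∀ s ∈ link X x, (cubeSet X x s).image g = cubeSet X x s → g = 1) ∧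
  (∀ u ∈ space X, ∃ U : Set (ℕ → ℝ), IsOpen U ∧ u ∈ U ∧ ∀ g ∈ Γ, g ≠ 1 → ∀ v ∈ space X,
    v ∈ U → (fun y => v (g y)) ∉ U)

/-! ### TP: the quotient -/

/-- TP1: the projection is a covering map -/
def S_TP1 : Prop := ∀ (X : SimpleGraph ℕ) (_ : IsMedianGraph X) (_ : LocFin X)
  (Γ : Subgroup (Equiv.Perm ℕ)) (F : Finset ℕ) (_ : IsDeck X Γ F), IsCoveringMap (proj X Γ)

/-- TP2: lifts of singular simplices -/
def S_TP2 : Prop := ∀ (X : SimpleGraph ℕ) (_ : IsMedianGraph X) (_ : LocFin X)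
  (Γ : Subgroup (Equiv.Perm ℕ)) (F : Finset ℕ) (_ : IsDeck X Γ F) (n : ℕ),
  (∀ σ : SSimplex (Mfd X Γ) n, ∃ τ : SSimplex (space X) n, (proj X Γ).comp τ = σ) ∧
  (∀ τ τ' : SSimplex (space X) n, (proj X Γ).comp τ = (proj X Γ).comp τ' →
    ∃ g ∈ Γ, ∀ t y, (τ' t : ℕ → ℝ) (g y) = (τ t : ℕ → ℝ) y)

/-- TP3: from cocycles on tuples of vertices to singular cochains of the quotient -/
def S_TP3 : Prop := ∀ (X : SimpleGraph ℕ) (_ : IsMedianGraph X) (_ : LocFin X)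
  (Γ : Subgroup (Equiv.Perm ℕ)) (F : Finset ℕ) (_ : IsDeck X Γ F) (n : ℕ)
  (c : (Fin (n + 1) → ℕ) → ℝ) (B : ℝ), (∀ v, |c v| ≤ B) → (∀ g ∈ Γ, ∀ v, c (fun i => g (v i)) = c v) →
  (∀ v : Fin (n + 2) → ℕ, ∑ i : Fin (n + 2), (-1 : ℝ) ^ (i : ℕ) * c (fun k => v (i.succAbove k)) = 0) →
  ∃ C : SSimplex (Mfd X Γ) n → ℝ, (∀ σ, |C σ| ≤ B) ∧
    (∀ σ : SSimplex (Mfd X Γ) (n + 1), ∑ i : Fin (n + 2), (-1 : ℝ) ^ (i : ℕ) * C (face σ i) = 0) ∧
    ∀ (τ : SSimplex (space X) n) (v : Fin (n + 1) → ℕ),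
      (∀ k y, ((τ (vtx k) : space X) : ℕ → ℝ) y = if y = v k then 1 else 0) →
      C ((proj X Γ).comp τ) = c v

/-! ### ZC: the fundamental cycle -/

/-- the ordered tuples of directions of cubes with corner `x` -/
noncomputable def Dom (X : SimpleGraph ℕ) (n : ℕ) (x : ℕ) : Finset (Fin n → ℕ) :=
  (Fintype.piFinset fun _ : Fin n => nbr X x).filter fun s =>
    Function.Injective s ∧ Finset.univ.image s ∈ link X x

/-- change of the corner of a cube with ordered directions -/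
noncomputable def th (X : SimpleGraph ℕ) {n : ℕ} (I : Finset (Fin n)) (x : ℕ) (s : Fin n → ℕ) :
    ℕ × (Fin n → ℕ) :=
  (corner X x (I.image s), fun j => rb X x (I.image s) (s j))

/-- ZC1: properties of the change of corner -/
def S_ZC1 : Prop := ∀ (X : SimpleGraph ℕ) (_ : IsMedianGraph X) (_ : LocFin X) (n : ℕ)
  (I : Finset (Fin n)) (x : ℕ) (s : Fin n → ℕ), s ∈ Dom X n x →
  (th X I x s).2 ∈ Dom X n (th X I x s).1 ∧
  th X I (th X I x s).1 (th X I x s).2 = (x, s) ∧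
  (∀ g : Equiv.Perm ℕ, IsAut X g →
    th X I (g x) (fun i => g (s i)) = (g (th X I x s).1, fun i => g ((th X I x s).2 i))) ∧
  (∀ (Γ : Subgroup (Equiv.Perm ℕ)) (o : ℕ → (Fin n → ℕ) → ℤ), Oriented X Γ n o →
    o (th X I x s).1 (th X I x s).2 = (-1) ^ I.card * o x s) ∧
  (∀ J : Finset (Fin n), In X (th X I x s).1 (corner X x (J.image s)) =
    (symmDiff I J).image (th X I x s).2)

/-- ZC2: sums over orbits are invariant under the change of corner -/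
def S_ZC2 : Prop := ∀ (X : SimpleGraph ℕ) (_ : IsMedianGraph X) (_ : LocFin X)
  (Γ : Subgroup (Equiv.Perm ℕ)) (F : Finset ℕ) (_ : IsDeck X Γ F) (n : ℕ) (I : Finset (Fin n))
  (M : Type) [AddCommGroup M] (Φ : ℕ → (Fin n → ℕ) → M),
  (∀ g ∈ Γ, ∀ x, ∀ s ∈ Dom X n x, Φ (g x) (fun i => g (s i)) = Φ x s) →
  ∑ x ∈ F, ∑ s ∈ Dom X n x, Φ (th X I x s).1 (th X I x s).2 = ∑ x ∈ F, ∑ s ∈ Dom X n x, Φ x s

/-- the affine simplex -/
def IsAffS (X : SimpleGraph ℕ) {n : ℕ} (x : ℕ) (s : Fin n → ℕ) (τ : SSimplex (space X) n) : Prop :=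
  ∀ t, ((τ t : space X) : ℕ → ℝ) = affPt X x s t

/-- ZC3: affine simplices and their faces -/
def S_ZC3 : Prop := ∀ (X : SimpleGraph ℕ) (_ : IsMedianGraph X) (_ : LocFin X),
  (∀ (n x : ℕ) (s : Fin n → ℕ), Finset.univ.image s ∈ link X x →
    ∃ τ : SSimplex (space X) n, IsAffS X x s τ ∧ affChain X x s = Finsupp.single τ 1) ∧
  (∀ (n x : ℕ) (s : Fin n → ℕ), s ∈ Dom X n x → ∀ (k : Fin (n + 1)) (y : ℕ),
    affPt X x s (vtx k) y = if y = corner X x (Sp.pre s k) then 1 else 0) ∧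
  (∀ (n x : ℕ) (s : Fin (n + 1) → ℕ), s ∈ Dom X (n + 1) x → ∀ t,
    affPt X x s (stdSimplex.map (Fin.succAbove 0) t) =
      affPt X (s 0) (fun j : Fin n => corner X x {s 0, s j.succ}) t) ∧
  (∀ (n x : ℕ) (s : Fin (n + 1) → ℕ), s ∈ Dom X (n + 1) x → ∀ t,
    affPt X x s (stdSimplex.map (Fin.succAbove (Fin.last (n + 1))) t) = affPt X x (Fin.init s) t) ∧
  (∀ (n x : ℕ) (s : Fin (n + 1) → ℕ) (i : Fin (n + 2)) (p q : Fin (n + 1)),
    (i : ℕ) = (q : ℕ) → (q : ℕ) = (p : ℕ) + 1 → ∀ t,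
    affPt X x (s ∘ Equiv.swap p q) (stdSimplex.map i.succAbove t) =
      affPt X x s (stdSimplex.map i.succAbove t))

/-- ZC4: the fundamental cycle is a cycle -/
def S_ZC4 : Prop := ∀ (X : SimpleGraph ℕ) (_ : IsMedianGraph X) (_ : LocFin X)
  (Γ : Subgroup (Equiv.Perm ℕ)) (F : Finset ℕ) (_ : IsDeck X Γ F) (m : ℕ)
  (o : ℕ → (Fin (m + 1) → ℕ) → ℤ) (_ : Oriented X Γ (m + 1) o), bd (fundCycle X Γ F o) = 0

/-- ZC5: the Euler characteristic -/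
def S_ZC5 : Prop := ∀ (X : SimpleGraph ℕ) (_ : IsMedianGraph X) (_ : LocFin X)
  (Γ : Subgroup (Equiv.Perm ℕ)) (F : Finset ℕ) (_ : IsDeck X Γ F),
  (eulerChar X Γ F : ℚ) = ∑ x ∈ F, ∑ s ∈ link X x, (-1 / 2 : ℚ) ^ s.card

/-- ZC6: links are flag complexes with orientations -/
def S_ZC6 : Prop := ∀ (X : SimpleGraph ℕ) (_ : IsMedianGraph X) (_ : LocFin X),
  (∀ x, FlagC (link X x) ∧ verts (link X x) = nbr X x ∧
    ∀ a b, RA.Adj (link X x) a b ↔ a ≠ b ∧ X.Adj x a ∧ X.Adj x b ∧ Square X x a b) ∧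
  (∀ (Γ : Subgroup (Equiv.Perm ℕ)) (n : ℕ) (o : ℕ → (Fin n → ℕ) → ℤ), Oriented X Γ n o →
    ∀ x, IsOrient (link X x) n (o x))

/-! ### EV: evaluation -/

/-- the cocycle on tuples of vertices attached to local functions -/
noncomputable def ct (X : SimpleGraph ℕ) {k : ℕ} (f : ℕ → (Fin k → Finset ℕ) → ℝ)
    (v : Fin (k + 1) → ℕ) : ℝ :=
  ∑ᶠ z : ℕ, RA.dl (f z) (fun i => In X z (v i))

/-- functions which are compatible with the group -/
def Equi (Γ : Subgroup (Equiv.Perm ℕ)) {k : ℕ} (f : ℕ → (Fin k → Finset ℕ) → ℝ) : Prop :=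
  ∀ g ∈ Γ, ∀ z T, f (g z) (fun i => (T i).image g) = f z T

/-- functions whose coboundary vanishes on tuples of faces with a common vertex -/
def VanK (X : SimpleGraph ℕ) {k : ℕ} (f : ℕ → (Fin k → Finset ℕ) → ℝ) : Prop :=
  ∀ z, ∀ T : Fin (k + 1) → Finset ℕ, (∀ i, T i ∈ link X z ∧ (T i).Nonempty) → RA.InK T →
    RA.dl (f z) T = 0

/-- EV1: value on the vertices of a cube -/
def S_EV1 : Prop := ∀ (X : SimpleGraph ℕ) (_ : IsMedianGraph X) (_ : LocFin X) (k : ℕ)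
  (f : ℕ → (Fin k → Finset ℕ) → ℝ), VanK X f → ∀ (x : ℕ), ∀ s ∈ Dom X k x,
  ct X f (fun i => corner X x (Sp.pre s i)) = ∑ I : Finset (Fin k),
    RA.dl (f (th X I x s).1) (fun i : Fin (k + 1) =>
      (symmDiff I (Finset.univ.filter fun j : Fin k => (j : ℕ) < (i : ℕ))).image (th X I x s).2)

/-- EV2: value on the fundamental cycle -/
def S_EV2 : Prop := ∀ (X : SimpleGraph ℕ) (_ : IsMedianGraph X) (_ : LocFin X)
  (Γ : Subgroup (Equiv.Perm ℕ)) (F : Finset ℕ) (_ : IsDeck X Γ F) (m : ℕ)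
  (o : ℕ → (Fin (m + 1) → ℕ) → ℤ) (_ : Oriented X Γ (m + 1) o)
  (f : ℕ → (Fin (m + 1) → Finset ℕ) → ℝ), VanK X f → Equi Γ f →
  ∑ x ∈ F, ∑ s ∈ Dom X (m + 1) x, (o x s : ℝ) * ct X f (fun i => corner X x (Sp.pre s i)) =
    2 * (-1) ^ m * ∑ x ∈ F, Finsupp.linearCombination ℝ (f x) (RA.zeta (link X x) (o x))

/-- EV3: evaluation of a cochain on the fundamental cycle -/
def S_EV3 : Prop := ∀ (X : SimpleGraph ℕ) (_ : IsMedianGraph X) (_ : LocFin X)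
  (Γ : Subgroup (Equiv.Perm ℕ)) (F : Finset ℕ) (n : ℕ)
  (o : ℕ → (Fin n → ℕ) → ℤ) (_ : Oriented X Γ n o)
  (C : SSimplex (Mfd X Γ) n → ℝ) (c : (Fin (n + 1) → ℕ) → ℝ),
  (∀ (τ : SSimplex (space X) n) (v : Fin (n + 1) → ℕ),
      (∀ k y, ((τ (vtx k) : space X) : ℕ → ℝ) y = if y = v k then 1 else 0) →
      C ((proj X Γ).comp τ) = c v) →
  (fundCycle X Γ F o).sum (fun σ a => a * C σ) =
    ∑ x ∈ F, ∑ s ∈ Dom X n x, (o x s : ℝ) * c (fun i => corner X x (Sp.pre s i))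

end MP8a95ee.Npc
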