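import Pool.Agent.Work.MP_8a95ee_gt.Npc.Stmts

/-!
# Nonpositively curved cubulations: statements of the items, part 2

the uniform bound, the bounded cocycle, Part I
-/

set_option autoImplicit false

namespace MP8a95ee.Npc

open Classical

/-! ### the hitting families -/

/-- the outside of `P ∪ Q` is adjacent to `P ∪ Q`, and the tuple hits `P ∪ Q` -/
def FC (L : Finset (Finset ℕ)) (P Q : Finset ℕ) {k : ℕ} (T : Fin k → Finset ℕ) : Prop :=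
  (∀ i, ∀ t ∈ T i, t ∉ P ∪ Q → ∀ c ∈ P ∪ Q, RA.Adj L t c) ∧
  (∀ q ∈ Q, ∃ p ∈ P, ∀ i, p ∈ T i ∨ q ∈ T i) ∧
  ∀ p ∈ P, ∃ q ∈ Q, ∀ i, p ∈ T i ∨ q ∈ T i

/-- tuples of nonempty simplices with a common vertex or in some hitting family -/
def KF (L : Finset (Finset ℕ)) {k : ℕ} (T : Fin k → Finset ℕ) : Prop :=
  (∀ i, T i ∈ L ∧ (T i).Nonempty) ∧
    (RA.InK T ∨ ∃ p : Finset ℕ × Finset ℕ, RA.GoodPair L p ∧ FC L p.1 p.2 T)

/-! ### BD: uniform bound -/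

/-- DEG: the degrees are bounded -/
def S_DEG : Prop := ∀ (X : SimpleGraph ℕ) (_ : IsMedianGraph X) (_ : LocFin X)
  (Γ : Subgroup (Equiv.Perm ℕ)) (F : Finset ℕ) (_ : IsDeck X Γ F), ∃ N, ∀ x, (nbr X x).card ≤ N

/-- RAM: Ramsey's theorem for pairs -/
def S_RAM : Prop := ∀ c m : ℕ, ∃ N, ∀ f : Fin N → Fin N → Fin c,
  ∃ g : Fin m → Fin N, StrictMono g ∧ ∀ i j k l, i < j → k < l → f (g i) (g j) = f (g k) (g l)

/-- a homogeneous sequence of vertices `x`; `e z` enumerates the neighbours of `z` (the index `i`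
is valid at `z` if `X.Adj z (e z i)`) -/
structure Hom {X : SimpleGraph ℕ} (D : WS X) (N M k : ℕ) (v : Fin (k + 1) → ℕ) (x : Fin M → ℕ)
    (e : ℕ → Fin N → ℕ) : Prop where
  ne : ∀ p q, p ≠ q → x p ≠ x q
  nev : ∀ p l, x p ≠ v l
  enum : ∀ z a, X.Adj z a → ∃ i, e z i = a
  inj : ∀ z i j, X.Adj z (e z i) → e z i = e z j → i = j
  val : ∀ p q i, X.Adj (x p) (e (x p) i) → X.Adj (x q) (e (x q) i)
  spl : ∀ p q i l, X.Adj (x p) (e (x p) i) → D.Sep (D.wall (x p) (e (x p) i)) (x p) (v l) →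
    D.Sep (D.wall (x q) (e (x q) i)) (x q) (v l)
  up : ∀ p q p' q' i, p < q → p' < q' → X.Adj (x p) (e (x p) i) →
    D.Sep (D.wall (x p) (e (x p) i)) (x p) (x q) →
    D.Sep (D.wall (x p') (e (x p') i)) (x p') (x q')
  dn : ∀ p q p' q' i, p < q → p' < q' → X.Adj (x p) (e (x p) i) →
    D.Sep (D.wall (x q) (e (x q) i)) (x p) (x q) →
    D.Sep (D.wall (x q') (e (x q') i)) (x p') (x q')
  eq : ∀ p q p' q' i, p < q → p' < q' → X.Adj (x p) (e (x p) i) →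
    D.wall (x p) (e (x p) i) = D.wall (x q) (e (x q) i) →
    D.wall (x p') (e (x p') i) = D.wall (x q') (e (x q') i)
  cr : ∀ p q p' q' i, p < q → p' < q' → X.Adj (x p) (e (x p) i) →
    D.Cross (D.wall (x p) (e (x p) i)) (D.wall (x q) (e (x q) i)) →
    D.Cross (D.wall (x p') (e (x p') i)) (D.wall (x q') (e (x q') i))

/-- the wall with index `i` at `x p` separates `x p` from the later vertices -/
def Up {X : SimpleGraph ℕ} (D : WS X) {N M : ℕ} (x : Fin M → ℕ) (e : ℕ → Fin N → ℕ)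
    (i : Fin N) : Prop := ∀ p q, p < q → D.Sep (D.wall (x p) (e (x p) i)) (x p) (x q)

/-- the wall with index `i` at `x q` separates `x q` from the earlier vertices -/
def Dn {X : SimpleGraph ℕ} (D : WS X) {N M : ℕ} (x : Fin M → ℕ) (e : ℕ → Fin N → ℕ)
    (i : Fin N) : Prop := ∀ p q, p < q → D.Sep (D.wall (x q) (e (x q) i)) (x p) (x q)

/-- HA: no index is increasing and decreasing -/
def S_HA : Prop := ∀ (X : SimpleGraph ℕ) (_ : IsMedianGraph X) (_ : LocFin X) (D : WS X)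
  (N M k : ℕ) (_ : ∀ z, (nbr X z).card ≤ N) (_ : N + 3 ≤ M) (v : Fin (k + 1) → ℕ)
  (x : Fin M → ℕ) (e : ℕ → Fin N → ℕ) (_ : Hom D N M k v x e)
  (_ : ∀ p, ¬ RA.InK fun l => In X (x p) (v l)) (i : Fin N) (_ : ∀ p, X.Adj (x p) (e (x p) i)),
  Up D x e i → ¬ Dn D x e i

/-- HB: the other relevant walls are constant -/
def S_HB : Prop := ∀ (X : SimpleGraph ℕ) (_ : IsMedianGraph X) (_ : LocFin X) (D : WS X)
  (N M k : ℕ) (_ : ∀ z, (nbr X z).card ≤ N) (_ : N + 3 ≤ M) (v : Fin (k + 1) → ℕ)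
  (x : Fin M → ℕ) (e : ℕ → Fin N → ℕ) (_ : Hom D N M k v x e)
  (i : Fin N) (_ : ∀ p, X.Adj (x p) (e (x p) i)),
  ¬ Up D x e i → ¬ Dn D x e i → (∃ p l, D.Sep (D.wall (x p) (e (x p) i)) (x p) (v l)) →
  ∀ p q, D.wall (x p) (e (x p) i) = D.wall (x q) (e (x q) i)

/-- HC: the constant walls are adjacent to the increasing and decreasing ones -/
def S_HC : Prop := ∀ (X : SimpleGraph ℕ) (_ : IsMedianGraph X) (_ : LocFin X) (D : WS X)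
  (N M k : ℕ) (v : Fin (k + 1) → ℕ)
  (x : Fin M → ℕ) (e : ℕ → Fin N → ℕ) (_ : Hom D N M k v x e)
  (i c : Fin N) (_ : ∀ p, X.Adj (x p) (e (x p) i)) (_ : ∀ p, X.Adj (x p) (e (x p) c)),
  ¬ Up D x e i → ¬ Dn D x e i → (∀ p q, D.wall (x p) (e (x p) i) = D.wall (x q) (e (x q) i)) →
  (Up D x e c ∨ Dn D x e c) → ∀ p0 p p1 : Fin M, p0 < p → p < p1 →
  Square X (x p) (e (x p) i) (e (x p) c)

/-- HD: the hitting conditions -/
def S_HD : Prop := ∀ (X : SimpleGraph ℕ) (_ : IsMedianGraph X) (_ : LocFin X) (D : WS X)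
  (N M k : ℕ) (_ : 2 ≤ M) (v : Fin (k + 1) → ℕ)
  (x : Fin M → ℕ) (e : ℕ → Fin N → ℕ) (_ : Hom D N M k v x e)
  (i : Fin N) (_ : ∀ p, X.Adj (x p) (e (x p) i)),
  (Dn D x e i → ∃ j, (∀ p, X.Adj (x p) (e (x p) j)) ∧ Up D x e j ∧
    ∀ p l, D.Sep (D.wall (x p) (e (x p) j)) (x p) (v l) ∨
      D.Sep (D.wall (x p) (e (x p) i)) (x p) (v l)) ∧
  (Up D x e i → ∃ j, (∀ p, X.Adj (x p) (e (x p) j)) ∧ Dn D x e j ∧
    ∀ p l, D.Sep (D.wall (x p) (e (x p) j)) (x p) (v l) ∨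
      D.Sep (D.wall (x p) (e (x p) i)) (x p) (v l))

/-- HE: there are increasing and decreasing walls, and at an inner vertex they form faces -/
def S_HE : Prop := ∀ (X : SimpleGraph ℕ) (_ : IsMedianGraph X) (_ : LocFin X) (D : WS X)
  (N M k : ℕ) (_ : 3 ≤ M) (v : Fin (k + 1) → ℕ)
  (x : Fin M → ℕ) (e : ℕ → Fin N → ℕ) (_ : Hom D N M k v x e),
  (∃ i, (∀ p, X.Adj (x p) (e (x p) i)) ∧ Up D x e i) ∧
  (∃ i, (∀ p, X.Adj (x p) (e (x p) i)) ∧ Dn D x e i) ∧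
  ∀ p0 p p1 : Fin M, p0 < p → p < p1 →
    (Finset.univ.filter fun i => X.Adj (x p) (e (x p) i) ∧ Up D x e i).image (e (x p)) ∈
      link X (x p) ∧
    (Finset.univ.filter fun i => X.Adj (x p) (e (x p) i) ∧ Dn D x e i).image (e (x p)) ∈
      link X (x p)

/-- HOM: in a long homogeneous sequence there is a vertex with tuple in `KF` -/
def S_HOM : Prop := ∀ (X : SimpleGraph ℕ) (_ : IsMedianGraph X) (_ : LocFin X) (D : WS X)
  (N M k : ℕ) (_ : ∀ z, (nbr X z).card ≤ N) (_ : N + 3 ≤ M) (v : Fin (k + 1) → ℕ)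
  (x : Fin M → ℕ) (e : ℕ → Fin N → ℕ) (_ : Hom D N M k v x e),
  ∃ p, KF (link X (x p)) fun l => In X (x p) (v l)

/-- BD: uniform bound -/
def S_BD : Prop := ∀ (X : SimpleGraph ℕ) (_ : IsMedianGraph X) (_ : LocFin X) (N k : ℕ)
  (_ : ∀ z, (nbr X z).card ≤ N), ∃ B : ℕ, ∀ (v : Fin (k + 1) → ℕ) (Z : Finset ℕ),
  (∀ z ∈ Z, ¬ KF (link X z) fun l => In X z (v l)) → Z.card ≤ B

/-! ### CO: the bounded cocycle -/

/-- DU: duality -/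
def S_DU : Prop := ∀ (L : Finset (Finset ℕ)) (m : ℕ) (o : (Fin (m + 1) → ℕ) → ℤ)
  (A : (Fin (m + 2) → Finset ℕ) → Prop),
  (∀ f : (Fin (m + 1) → Finset ℕ) → ℝ, (∀ T, A T → RA.dl f T = 0) →
    Finsupp.linearCombination ℝ f (RA.zeta L o) = 0) → RA.Bounds L o A

/-- FU: from a function at one vertex to a compatible family -/
def S_FU : Prop := ∀ (X : SimpleGraph ℕ) (_ : IsMedianGraph X) (_ : LocFin X)
  (Γ : Subgroup (Equiv.Perm ℕ)) (F : Finset ℕ) (_ : IsDeck X Γ F) (m : ℕ) (x0 : ℕ) (_ : x0 ∈ F)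
  (f0 : (Fin (m + 1) → Finset ℕ) → ℝ)
  (_ : ∀ T : Fin (m + 2) → Finset ℕ, KF (link X x0) T → RA.dl f0 T = 0),
  ∃ f : ℕ → (Fin (m + 1) → Finset ℕ) → ℝ, Equi Γ f ∧
    (∀ z, ∀ T : Fin (m + 2) → Finset ℕ, KF (link X z) T → RA.dl (f z) T = 0) ∧
    (∃ C : ℝ, ∀ z T, |f z T| ≤ C) ∧ (∀ x ∈ F, x ≠ x0 → f x = 0) ∧
    ∀ T : Fin (m + 1) → Finset ℕ, (∀ i, T i ∈ link X x0) → f x0 T = f0 T

/-- CO: the bounded cocycle -/
def S_CO : Prop := ∀ (X : SimpleGraph ℕ) (_ : IsMedianGraph X) (_ : LocFin X)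
  (Γ : Subgroup (Equiv.Perm ℕ)) (F : Finset ℕ) (_ : IsDeck X Γ F) (m : ℕ)
  (f : ℕ → (Fin (m + 1) → Finset ℕ) → ℝ) (_ : Equi Γ f)
  (_ : ∀ z, ∀ T : Fin (m + 2) → Finset ℕ, KF (link X z) T → RA.dl (f z) T = 0)
  (C : ℝ) (_ : ∀ z T, |f z T| ≤ C),
  VanK X f ∧ (∃ B : ℝ, ∀ v : Fin (m + 2) → ℕ, |ct X f v| ≤ B) ∧
  (∀ g ∈ Γ, ∀ v : Fin (m + 2) → ℕ, ct X f (fun i => g (v i)) = ct X f v) ∧
  ∀ v : Fin (m + 3) → ℕ,
    ∑ i : Fin (m + 3), (-1 : ℝ) ^ (i : ℕ) * ct X f (fun k => v (i.succAbove k)) = 0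

/-- P1: Part I -/
def S_P1 : Prop := ∀ (X : SimpleGraph ℕ) (_ : IsMedianGraph X) (_ : LocFin X)
  (Γ : Subgroup (Equiv.Perm ℕ)) (F : Finset ℕ) (_ : IsDeck X Γ F) (m : ℕ)
  (o : ℕ → (Fin (m + 1) → ℕ) → ℤ) (_ : Oriented X Γ (m + 1) o) (x0 : ℕ) (_ : x0 ∈ F)
  (_ : ¬ RA.Bounds (link X x0) (o x0) (KF (link X x0))),
  ∃ c : ℝ, 0 < c ∧ ∀ (Y : Type) [TopologicalSpace Y] (f : C(Y, Mfd X Γ)) (lam : ℝ)
    (z : SChain Y (m + 1)) (w : SChain (Mfd X Γ) (m + 2)),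
    push f z = lam • fundCycle X Γ F o + bd w → c * |lam| ≤ l1 z

end MP8a95ee.Npc
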