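import Pool.Agent.Work.MP_8a95ee_gt.Npc.Stmts2

/-!
# Nonpositively curved cubulations: statements of the items, part 3

Part II: if `ζ(o)` bounds in the family `KF L` then `κ(L) = 0`.  `L` is a finite flag complex.
-/

set_option autoImplicit false

namespace MP8a95ee.Npc

open Classical

/-! ### NU: signed measures on sign vectors -/

/-- `C` is connected in the nonadjacency graph -/
def Conn (L : Finset (Finset ℕ)) (C : Finset ℕ) : Prop :=
  ∀ D ⊆ C, D.Nonempty → D ≠ C → ∃ a ∈ D, ∃ b ∈ C, b ∉ D ∧ ¬ RA.Adj L a b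

/-- the classes: unions of two simplices which are connected in the nonadjacency graph -/
def Cls (L : Finset (Finset ℕ)) (C : Finset ℕ) : Prop :=
  C.Nonempty ∧ Conn L C ∧ ∃ P ∈ L, ∃ Q ∈ L, C = P ∪ Q

/-- the first weights -/
noncomputable def wN (L : Finset (Finset ℕ)) (C A : Finset ℕ) : ℝ :=
  ∑ G ∈ L.filter (fun G => A ⊆ G ∧ G ⊆ C), (1 / 2 : ℝ) ^ G.card * (-1) ^ (G \ A).card

/-- the second weights -/
noncomputable def uN (L : Finset (Finset ℕ)) (E A : Finset ℕ) : ℝ :=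
  ∑ G ∈ L.filter (fun G => A ⊆ G ∧ G ⊆ E), (-1 : ℝ) ^ (G \ A).card

/-- NU1: the first weights have uniform marginals -/
def S_NU1 : Prop := ∀ (L : Finset (Finset ℕ)) (_ : FlagC L) (C : Finset ℕ), ∀ F ∈ L, F ⊆ C →
  ∀ B ⊆ F, ∑ A ∈ L.filter (fun A => A ⊆ C ∧ A ∩ F = B), wN L C A = (1 / 2) ^ F.card

/-- NU2: the second weights have the marginals of the point mass at `E` -/
def S_NU2 : Prop := ∀ (L : Finset (Finset ℕ)) (_ : FlagC L) (E : Finset ℕ), ∀ F ∈ L,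
  ∀ B ⊆ F, ∑ A ∈ L.filter (fun A => A ⊆ E ∧ A ∩ F = B), uN L E A = if E ∩ F = B then 1 else 0

/-- NU3: the mass at the empty set can be removed -/
def S_NU3 : Prop := ∀ (L : Finset (Finset ℕ)) (_ : FlagC L) (C : Finset ℕ) (_ : Cls L C)
  (_ : 1 < C.card), wN L C ∅ = 0 ∨ ∃ A0 ∈ L, A0.Nonempty ∧ A0 ⊆ C ∧ uN L (C \ A0) ∅ ≠ 0

/-- a signed measure on the subsets `A` of `C` with uniform marginals on the faces, supported on
those `A` for which `A` or `C \ A` is a nonempty face -/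
def IsNu (L : Finset (Finset ℕ)) (C : Finset ℕ) (ν : Finset ℕ → ℝ) : Prop :=
  (∀ A, ν A ≠ 0 → A ⊆ C ∧ ((A ∈ L ∧ A.Nonempty) ∨ (C \ A ∈ L ∧ (C \ A).Nonempty))) ∧
  ∀ F ∈ L, F ⊆ C → ∀ B ⊆ F,
    ∑ A ∈ C.powerset.filter (fun A => A ∩ F = B), ν A = (1 / 2) ^ F.card

/-- NU4: existence -/
def S_NU4 : Prop := ∀ (L : Finset (Finset ℕ)) (_ : FlagC L) (C : Finset ℕ) (_ : Cls L C)
  (_ : 1 < C.card), ∃ ν, IsNu L C ν

/-! ### PS: the chain map to tuples of classes -/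

/-- compatible classes -/
def Cmp (L : Finset (Finset ℕ)) (C C' : Finset ℕ) : Prop :=
  C = C' ∨ (∀ a ∈ C, ∀ b ∈ C', RA.Adj L a b) ∨ (∃ u ∈ C', C = {u}) ∨ ∃ u ∈ C, C' = {u}

/-- tuples of pairwise compatible classes -/
def CmpT (L : Finset (Finset ℕ)) {k : ℕ} (s : Fin k → Finset ℕ) : Prop :=
  (∀ i, Cls L (s i)) ∧ ∀ i j, Cmp L (s i) (s j)

/-- the class `C` may be chosen for the tuple `T` -/
def Cand (L : Finset (Finset ℕ)) {k : ℕ} (T : Fin k → Finset ℕ) (C : Finset ℕ) : Prop :=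
  Cls L C ∧ (∀ i, ∀ t ∈ T i, t ∉ C → ∀ c ∈ C, RA.Adj L t c) ∧
  (∀ (l : ℕ) (g : Fin (l + 1) → Fin k), ¬ RA.InK (fun i => T (g i)) →
    C ⊆ RA.Wt (fun i => T (g i))) ∧
  (RA.InK T → ∃ u, C = {u} ∧ ∀ i, u ∈ T i)

/-- PS1: existence -/
def S_PS1 : Prop := ∀ (L : Finset (Finset ℕ)) (_ : FlagC L) (k : ℕ)
  (T : Fin (k + 1) → Finset ℕ), KF L T →
  (∃ C, Cand L T C) ∧ (RA.KG L (RA.TrivP L) T → ∃ u, Cand L T {u})

/-- PS2: the choices are compatible -/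
def S_PS2 : Prop := ∀ (L : Finset (Finset ℕ)) (_ : FlagC L) (k l : ℕ)
  (T : Fin (k + 1) → Finset ℕ) (g : Fin (l + 1) → Fin (k + 1)) (C C' : Finset ℕ),
  Cand L T C → Cand L (fun i => T (g i)) C' → Cmp L C C'

/-- PS3: the chain map -/
def S_PS3 : Prop := ∀ (L : Finset (Finset ℕ)) (_ : FlagC L),
  ∃ Ψ : ∀ k, (Fin k → Finset ℕ) → RA.Ch (Finset ℕ) k,
    (∀ T : Fin 0 → Finset ℕ, Ψ 0 T = Finsupp.single T 1) ∧
    (∀ k (T : Fin (k + 1) → Finset ℕ), RA.bdT (Ψ (k + 1) T) =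
      ∑ i : Fin (k + 1), ((-1 : ℝ) ^ (i : ℕ)) • Ψ k fun j => T (i.succAbove j)) ∧
    (∀ k (T : Fin k → Finset ℕ), KF L T → ∀ s ∈ (Ψ k T).support,
      CmpT L s ∧ ∀ i, s i ⊆ RA.Wt T) ∧
    ∀ k (T : Fin k → Finset ℕ), RA.KG L (RA.TrivP L) T → ∀ s ∈ (Ψ k T).support,
      ∀ i, (s i).card = 1

/-! ### J: chains of the deleted join

A chain is a function of two finite sets `σ` (the vertices in the first copy) and `τ` (the
vertices in the second copy). -/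

/-- chains -/
abbrev JC : Type := Finset ℕ → Finset ℕ → ℝ

/-- chains of the deleted join of size `k` -/
def IsJ (L : Finset (Finset ℕ)) (k : ℕ) (c : JC) : Prop :=
  ∀ σ τ, c σ τ ≠ 0 → σ ∈ L ∧ τ ∈ L ∧ Disjoint σ τ ∧ σ.card + τ.card = k

/-- left multiplication with the vertex `a` of the first copy -/
noncomputable def wP (a : ℕ) (c : JC) : JC := fun σ τ =>
  if a ∈ σ then RA.sg a (σ.erase a) * c (σ.erase a) τ else 0

/-- left multiplication with the vertex `a` of the second copy -/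
noncomputable def wM (a : ℕ) (c : JC) : JC := fun σ τ =>
  if a ∈ τ then (-1) ^ σ.card * RA.sg a (τ.erase a) * c σ (τ.erase a) else 0

/-- the boundary -/
noncomputable def dJ (V : Finset ℕ) (c : JC) : JC := fun σ τ =>
  ∑ a ∈ V \ σ, RA.sg a σ * c (insert a σ) τ +
    ∑ a ∈ V \ τ, (-1) ^ σ.card * RA.sg a τ * c σ (insert a τ)

/-- left multiplication with a vertex -/
noncomputable def wJ (a : ℕ × Bool) (c : JC) : JC := if a.2 then wM a.1 c else wP a.1 c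

/-- J1: contraction -/
def S_J1 : Prop := ∀ (V : Finset ℕ) (a : ℕ × Bool) (_ : a.1 ∈ V) (c : JC)
  (_ : ∀ σ τ, c σ τ ≠ 0 → σ ⊆ V ∧ τ ⊆ V), dJ V (wJ a c) = c - wJ a (dJ V c)

/-- J2: `d ∘ d = 0` -/
def S_J2 : Prop := ∀ (V : Finset ℕ) (c : JC) (_ : ∀ σ τ, c σ τ ≠ 0 → σ ⊆ V ∧ τ ⊆ V),
  dJ V (dJ V c) = 0

/-- the chain given by an ordered tuple of vertices -/
noncomputable def altJ : ∀ k : ℕ, (Fin k → ℕ × Bool) → JC
  | 0, _ => fun σ τ => if σ = ∅ ∧ τ = ∅ then 1 else 0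
  | k + 1, t => wJ (t 0) (altJ k fun i => t i.succ)

/-- J3: boundary and support of the chain of a tuple -/
def S_J3 : Prop := ∀ (V : Finset ℕ) (k : ℕ),
  (∀ t : Fin (k + 1) → ℕ × Bool, (∀ i, (t i).1 ∈ V) → dJ V (altJ (k + 1) t) =
    ∑ i : Fin (k + 1), ((-1 : ℝ) ^ (i : ℕ)) • altJ k fun j => t (i.succAbove j)) ∧
  ∀ (t : Fin k → ℕ × Bool) (σ τ : Finset ℕ), altJ k t σ τ ≠ 0 →
    σ.card + τ.card = k ∧ σ ⊆ (Finset.univ.filter fun i => (t i).2 = false).image (fun i => (t i).1) ∧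
    τ ⊆ (Finset.univ.filter fun i => (t i).2 = true).image fun i => (t i).1

/-! ### TH: the random vertex map -/

/-- an element of `C` -/
noncomputable def pick (C : Finset ℕ) : ℕ := if h : C.Nonempty then C.min' h else 0

/-- the vertex map for the sign vector `A` (the set of the vertices which go to the second copy) -/
noncomputable def ph (L : Finset (Finset ℕ)) (A C : Finset ℕ) : ℕ × Bool :=
  if A ∩ C ∈ L ∧ (A ∩ C).Nonempty then (pick (A ∩ C), true) else (pick (C \ A), false)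

/-- the density -/
noncomputable def dens (ν : Finset ℕ → Finset ℕ → ℝ) (V : Finset ℕ) {k : ℕ}
    (s : Fin k → Finset ℕ) (A : Finset ℕ) : ℝ :=
  (1 / 2) ^ V.card * ∏ C ∈ (Finset.univ.image s).filter (fun C => 1 < C.card),
    2 ^ C.card * ν C (A ∩ C)

/-- the random vertex map -/
noncomputable def Th (L : Finset (Finset ℕ)) (ν : Finset ℕ → Finset ℕ → ℝ) {k : ℕ}
    (s : Fin k → Finset ℕ) : JC :=
  ∑ A ∈ (verts L).powerset, dens ν (verts L) s A • altJ k fun i => ph L A (s i)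

/-- TH1: a function which depends only on the part of `A` outside of `C` and on `A ∩ F` has the
same integral with and without the density of `C` -/
def S_TH1 : Prop := ∀ (L : Finset (Finset ℕ)) (_ : FlagC L) (C : Finset ℕ) (ν : Finset ℕ → ℝ)
  (_ : IsNu L C ν) (V : Finset ℕ) (_ : C ⊆ V) (F : Finset ℕ) (_ : F ∈ L) (_ : F ⊆ C) (M : Type)
  [AddCommGroup M] [Module ℝ M] (G : Finset ℕ → M)
  (_ : ∀ A ⊆ V, ∀ A' ⊆ V, A \ C = A' \ C → A ∩ F = A' ∩ F → G A = G A'),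
  ∑ A ∈ V.powerset, (2 ^ C.card * ν (A ∩ C)) • G A = ∑ A ∈ V.powerset, G A

/-- TH2: the random vertex map is a chain map on compatible tuples -/
def S_TH2 : Prop := ∀ (L : Finset (Finset ℕ)) (_ : FlagC L) (ν : Finset ℕ → Finset ℕ → ℝ)
  (_ : ∀ C, Cls L C → 1 < C.card → IsNu L C (ν C)) (k : ℕ) (s : Fin (k + 1) → Finset ℕ)
  (_ : CmpT L s), dJ (verts L) (Th L ν s) =
    ∑ i : Fin (k + 1), ((-1 : ℝ) ^ (i : ℕ)) • Th L ν fun j => s (i.succAbove j)

/-- TH3: its values are chains of the deleted join -/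
def S_TH3 : Prop := ∀ (L : Finset (Finset ℕ)) (_ : FlagC L) (ν : Finset ℕ → Finset ℕ → ℝ)
  (_ : ∀ C, Cls L C → 1 < C.card → IsNu L C (ν C)) (k : ℕ) (s : Fin k → Finset ℕ)
  (_ : CmpT L s), IsJ L k (Th L ν s)

/-- left multiplication with a vertex for chains on `L` -/
noncomputable def wV (a : ℕ) (c : Finset ℕ → ℝ) : Finset ℕ → ℝ := fun t =>
  if a ∈ t then RA.sg a (t.erase a) * c (t.erase a) else 0

/-- the chain given by an ordered tuple of vertices -/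
noncomputable def altV : ∀ k : ℕ, (Fin k → ℕ) → Finset ℕ → ℝ
  | 0, _ => fun t => if t = ∅ then 1 else 0
  | k + 1, a => wV (a 0) (altV k fun i => a i.succ)

/-- distribution of the vertices to the two copies -/
noncomputable def sp (A : Finset ℕ) (c : Finset ℕ → ℝ) : JC := fun σ τ =>
  if Disjoint σ A ∧ τ ⊆ A then RA.sgg σ τ * c (σ ∪ τ) else 0

/-- SP1: distribution and multiplication -/
def S_SP1 : Prop := ∀ (A : Finset ℕ) (a : ℕ) (c : Finset ℕ → ℝ),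
  sp A (wV a c) = if a ∈ A then wM a (sp A c) else wP a (sp A c)

/-- SP2: distribution and boundary -/
def S_SP2 : Prop := ∀ (L : Finset (Finset ℕ)) (_ : FlagC L) (A : Finset ℕ) (c : Finset ℕ → ℝ)
  (_ : ∀ t, c t ≠ 0 → t ∈ L), dJ (verts L) (sp A c) = sp A (RA.bdS L c)

/-- SP3: boundary and support for tuples of vertices of `L` -/
def S_SP3 : Prop := ∀ (L : Finset (Finset ℕ)) (_ : FlagC L) (k : ℕ),
  (∀ a : Fin (k + 1) → ℕ, (∀ i j, ({a i, a j} : Finset ℕ) ∈ L) → RA.bdS L (altV (k + 1) a) =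
    ∑ i : Fin (k + 1), ((-1 : ℝ) ^ (i : ℕ)) • altV k fun j => a (i.succAbove j)) ∧
  ∀ a : Fin k → ℕ, (∀ i j, ({a i, a j} : Finset ℕ) ∈ L) → ∀ t, altV k a t ≠ 0 →
    t ∈ L ∧ t ⊆ Finset.univ.image a ∧ t.card = k

/-- SP4: for tuples of vertices the random vertex map is the average over all distributions -/
def S_SP4 : Prop := ∀ (L : Finset (Finset ℕ)) (_ : FlagC L) (ν : Finset ℕ → Finset ℕ → ℝ) (k : ℕ)
  (s : Fin k → Finset ℕ) (_ : ∀ i, s i ∈ L ∧ (s i).card = 1),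
  Th L ν s = ∑ A ∈ (verts L).powerset,
    ((1 / 2 : ℝ) ^ (verts L).card) • sp A (altV k fun i => pick (s i))

/-- SP5: the average over all distributions as a combination of distributions given by faces -/
def S_SP5 : Prop := ∀ (L : Finset (Finset ℕ)) (_ : FlagC L) (c : Finset ℕ → ℝ)
  (_ : ∀ t, c t ≠ 0 → t ∈ L),
  ∑ A ∈ (verts L).powerset, ((1 / 2 : ℝ) ^ (verts L).card) • sp A c =
    ∑ A ∈ L, wN L (verts L) A • sp A c

/-- SP6: the distribution given by a nonempty face bounds -/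
def S_SP6 : Prop := ∀ (L : Finset (Finset ℕ)) (_ : FlagC L) (k : ℕ) (c : Finset ℕ → ℝ)
  (_ : ∀ t, c t ≠ 0 → t ∈ L ∧ t.card = k) (_ : RA.bdS L c = 0), ∀ A ∈ L, A.Nonempty →
  ∃ y : JC, IsJ L (k + 1) y ∧ dJ (verts L) y = sp A c

/-! ### AC: the deleted join of a homology sphere -/

/-- AC1: links minus a face are acyclic -/
def S_AC1 : Prop := ∀ (L : Finset (Finset ℕ)) (_ : FlagC L) (n : ℕ) (_ : RA.IsHSphere L n)
  (o : (Fin n → ℕ) → ℤ) (_ : IsOrient L n o) (τ : Finset ℕ) (_ : τ.Nonempty) (s : Finset ℕ)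
  (_ : Disjoint s τ) (_ : s ∪ τ ∈ L) (k : ℕ) (c : Finset ℕ → ℝ), RA.LkChain L s k c →
  (∀ t, c t ≠ 0 → Disjoint t τ) → RA.bdS L c = 0 →
  ∃ c', RA.LkChain L s (k + 1) c' ∧ (∀ t, c' t ≠ 0 → Disjoint t τ) ∧ RA.bdS L c' = c

/-- AC2: the orientation in the first copy is not a boundary -/
def S_AC2 : Prop := ∀ (L : Finset (Finset ℕ)) (_ : FlagC L) (m : ℕ)
  (_ : RA.IsHSphere L (m + 1)) (o : (Fin (m + 1) → ℕ) → ℤ) (_ : IsOrient L (m + 1) o)
  (y : JC) (_ : IsJ L (m + 2) y) (c : ℝ), dJ (verts L) y = c • sp ∅ (RA.oF o) → c = 0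

/-! ### P2: Part II -/

/-- P2 -/
def S_P2 : Prop := ∀ (L : Finset (Finset ℕ)) (_ : FlagC L) (m : ℕ)
  (_ : RA.IsHSphere L (m + 1)) (o : (Fin (m + 1) → ℕ) → ℤ) (_ : IsOrient L (m + 1) o),
  RA.Bounds L o (KF L) → ∑ s ∈ L, (-1 / 2 : ℝ) ^ s.card = 0

end MP8a95ee.Npc
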