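import Pool.Agent.Work.MP_8a95ee_gt.Npc.Stmts2

/-!
# Nonpositively curved cubulations, item BD: uniform bound
-/

set_option autoImplicit false

namespace MP8a95ee.Npc

open Classical

namespace BD

theorem unary {α : Type} {M : ℕ} (hM : 3 ≤ M) (U : Fin M → α)
    (h : ∀ p q p' q' : Fin M, p < q → p' < q' → U p = U p' ∧ U q = U q') (p q : Fin M) :
    U p = U q := by
  obtain ⟨a, ha⟩ : ∃ a : Fin M, (a : ℕ) = 0 := ⟨⟨0, by omega⟩, rfl⟩
  obtain ⟨b, hb⟩ : ∃ b : Fin M, (b : ℕ) = 1 := ⟨⟨1, by omega⟩, rfl⟩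
  obtain ⟨c, hc⟩ : ∃ c : Fin M, (c : ℕ) = 2 := ⟨⟨2, by omega⟩, rfl⟩
  have hab : a < b := by rw [Fin.lt_def]; omega
  have hbc : b < c := by rw [Fin.lt_def]; omega
  have h1 : U a = U b := (h a b b c hab hbc).1
  have h2 : ∀ r, U r = U a := by
    intro r
    rcases Nat.eq_zero_or_pos (r : ℕ) with h0 | h0
    · have : r = a := Fin.ext (by omega)
      rw [this]
    · have har : a < r := by rw [Fin.lt_def]; omega
      rw [(h a r a b har hab).2, h1]
  rw [h2 p, h2 q]

theorem enumeration {X : SimpleGraph ℕ} (hf : LocFin X) {N : ℕ}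
    (hN : ∀ z, (nbr X z).card ≤ N) : ∃ e : ℕ → Fin N → ℕ,
      (∀ z a, X.Adj z a → ∃ i, e z i = a) ∧
      ∀ z i j, X.Adj z (e z i) → e z i = e z j → i = j := by
  have h : ∀ z, ∃ e : Fin N → ℕ, (∀ a, X.Adj z a → ∃ i, e i = a) ∧
      ∀ i j, X.Adj z (e i) → e i = e j → i = j := by
    intro z
    have hcard : Fintype.card (nbr X z) ≤ Fintype.card (Fin N) := by
      rw [Fintype.card_coe, Fintype.card_fin]; exact hN z
    obtain ⟨em⟩ := Function.Embedding.nonempty_of_card_le hcard
    refine ⟨fun i => if h : ∃ a : nbr X z, em a = i then (h.choose : ℕ) else z, ?_, ?_⟩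
    · intro a ha
      refine ⟨em ⟨a, (mem_nbr hf).2 ha⟩, ?_⟩
      have h : ∃ b : nbr X z, em b = em ⟨a, (mem_nbr hf).2 ha⟩ := ⟨_, rfl⟩
      simp only
      rw [dif_pos h, em.injective h.choose_spec]
    · intro i j hi hij
      simp only at hi hij
      by_cases h : ∃ a : nbr X z, em a = i
      · by_cases h' : ∃ a : nbr X z, em a = j
        · rw [dif_pos h, dif_pos h'] at hij
          have := Subtype.ext hij
          rw [← h.choose_spec, ← h'.choose_spec, this]
        · rw [hij, dif_neg h'] at hi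
          exact absurd hi (X.loopless.irrefl z)
      · rw [dif_neg h] at hi
        exact absurd hi (X.loopless.irrefl z)
  choose e he using h
  exact ⟨e, fun z => (he z).1, fun z => (he z).2⟩

/-- the colours -/
abbrev Col (N k : ℕ) : Type := Fin N → (Prop × Prop × (Fin (k + 1) → Prop) × (Fin (k + 1) → Prop) ×
  Prop × Prop × Prop × Prop)

/-- the colour of a pair of vertices -/
def col {X : SimpleGraph ℕ} (D : WS X) {N k : ℕ} (e : ℕ → Fin N → ℕ) (v : Fin (k + 1) → ℕ)
    (y z : ℕ) : Col N k := fun i =>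
  (X.Adj y (e y i), X.Adj z (e z i), fun l => D.Sep (D.wall y (e y i)) y (v l),
    fun l => D.Sep (D.wall z (e z i)) z (v l), D.Sep (D.wall y (e y i)) y z,
    D.Sep (D.wall z (e z i)) y z, D.wall y (e y i) = D.wall z (e z i),
    D.Cross (D.wall y (e y i)) (D.wall z (e z i)))

theorem hom {X : SimpleGraph ℕ} (D : WS X) {N k M : ℕ} (hM : 3 ≤ M) {e : ℕ → Fin N → ℕ}
    (he1 : ∀ z a, X.Adj z a → ∃ i, e z i = a)
    (he2 : ∀ z i j, X.Adj z (e z i) → e z i = e z j → i = j)
    {v : Fin (k + 1) → ℕ} {x : Fin M → ℕ} (hx : Function.Injective x)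
    (hxv : ∀ p l, x p ≠ v l)
    (hc : ∀ p q p' q', p < q → p' < q' → col D e v (x p) (x q) = col D e v (x p') (x q')) :
    Hom D N M k v x e := by
  have hc' : ∀ p q p' q', p < q → p' < q' → ∀ i,
      col D e v (x p) (x q) i = col D e v (x p') (x q') i := by
    intro p q p' q' h h' i
    rw [hc p q p' q' h h']
  have c1 : ∀ p q p' q', p < q → p' < q' → ∀ i,
      X.Adj (x p) (e (x p) i) = X.Adj (x p') (e (x p') i) := fun p q p' q' h h' i =>
    congrArg (fun t => t.1) (hc' p q p' q' h h' i)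
  have c2 : ∀ p q p' q', p < q → p' < q' → ∀ i,
      X.Adj (x q) (e (x q) i) = X.Adj (x q') (e (x q') i) := fun p q p' q' h h' i =>
    congrArg (fun t => t.2.1) (hc' p q p' q' h h' i)
  have c3 : ∀ p q p' q', p < q → p' < q' → ∀ i,
      (fun l => D.Sep (D.wall (x p) (e (x p) i)) (x p) (v l)) =
        fun l => D.Sep (D.wall (x p') (e (x p') i)) (x p') (v l) := fun p q p' q' h h' i =>
    congrArg (fun t => t.2.2.1) (hc' p q p' q' h h' i)
  have c4 : ∀ p q p' q', p < q → p' < q' → ∀ i,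
      (fun l => D.Sep (D.wall (x q) (e (x q) i)) (x q) (v l)) =
        fun l => D.Sep (D.wall (x q') (e (x q') i)) (x q') (v l) := fun p q p' q' h h' i =>
    congrArg (fun t => t.2.2.2.1) (hc' p q p' q' h h' i)
  have c5 : ∀ p q p' q', p < q → p' < q' → ∀ i,
      D.Sep (D.wall (x p) (e (x p) i)) (x p) (x q) =
        D.Sep (D.wall (x p') (e (x p') i)) (x p') (x q') := fun p q p' q' h h' i =>
    congrArg (fun t => t.2.2.2.2.1) (hc' p q p' q' h h' i)
  have c6 : ∀ p q p' q', p < q → p' < q' → ∀ i,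
      D.Sep (D.wall (x q) (e (x q) i)) (x p) (x q) =
        D.Sep (D.wall (x q') (e (x q') i)) (x p') (x q') := fun p q p' q' h h' i =>
    congrArg (fun t => t.2.2.2.2.2.1) (hc' p q p' q' h h' i)
  have c7 : ∀ p q p' q', p < q → p' < q' → ∀ i,
      (D.wall (x p) (e (x p) i) = D.wall (x q) (e (x q) i)) =
        (D.wall (x p') (e (x p') i) = D.wall (x q') (e (x q') i)) := fun p q p' q' h h' i =>
    congrArg (fun t => t.2.2.2.2.2.2.1) (hc' p q p' q' h h' i)
  have c8 : ∀ p q p' q', p < q → p' < q' → ∀ i,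
      D.Cross (D.wall (x p) (e (x p) i)) (D.wall (x q) (e (x q) i)) =
        D.Cross (D.wall (x p') (e (x p') i)) (D.wall (x q') (e (x q') i)) :=
    fun p q p' q' h h' i => congrArg (fun t => t.2.2.2.2.2.2.2) (hc' p q p' q' h h' i)
  have u1 : ∀ i p q, X.Adj (x p) (e (x p) i) = X.Adj (x q) (e (x q) i) := fun i =>
    unary hM (fun p => X.Adj (x p) (e (x p) i)) fun p q p' q' h h' =>
      ⟨c1 p q p' q' h h' i, c2 p q p' q' h h' i⟩
  have u2 : ∀ i p q, (fun l => D.Sep (D.wall (x p) (e (x p) i)) (x p) (v l)) =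
      fun l => D.Sep (D.wall (x q) (e (x q) i)) (x q) (v l) := fun i =>
    unary hM (fun p => fun l => D.Sep (D.wall (x p) (e (x p) i)) (x p) (v l)) fun p q p' q' h h' =>
      ⟨c3 p q p' q' h h' i, c4 p q p' q' h h' i⟩
  exact
    { ne := fun p q hpq h => hpq (hx h)
      nev := hxv
      enum := he1
      inj := he2
      val := fun p q i h => (u1 i p q) ▸ h
      spl := fun p q i l _ h => (congrFun (u2 i p q) l) ▸ h
      up := fun p q p' q' i h h' _ hs => (c5 p q p' q' h h' i) ▸ hs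
      dn := fun p q p' q' i h h' _ hs => (c6 p q p' q' h h' i) ▸ hs
      eq := fun p q p' q' i h h' _ hs => (c7 p q p' q' h h' i).mp hs
      cr := fun p q p' q' i h h' _ hs => (c8 p q p' q' h h' i).mp hs }

end BD

theorem prfBD (h1 : S_MG5) (h2 : S_RAM) (h3 : S_HOM) : S_BD := by
  intro X hX hf N k hN
  obtain ⟨D⟩ := h1 X hX
  obtain ⟨e, he1, he2⟩ := BD.enumeration hf hN
  obtain ⟨R, hR⟩ := h2 (Fintype.card (BD.Col N k)) (N + 3)
  refine ⟨R + (k + 1), fun v Z hZ => ?_⟩
  by_contra hB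
  push Not at hB
  have hcard : R ≤ (Z \ Finset.univ.image v).card := by
    have e1 := Finset.le_card_sdiff (Finset.univ.image v) Z
    have e2 : (Finset.univ.image v).card ≤ k + 1 := by
      refine Finset.card_image_le.trans ?_
      rw [Finset.card_univ, Fintype.card_fin]
    omega
  obtain ⟨g, hg, hh⟩ := hR fun a b => Fintype.equivFin (BD.Col N k)
    (BD.col D e v ((Z \ Finset.univ.image v).orderEmbOfCardLe hcard a)
      ((Z \ Finset.univ.image v).orderEmbOfCardLe hcard b))
  have hmem : ∀ p, (Z \ Finset.univ.image v).orderEmbOfCardLe hcard p ∈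
      Z \ Finset.univ.image v := fun p => Finset.orderEmbOfCardLe_mem _ hcard p
  have hom := BD.hom D (M := N + 3) (by omega) he1 he2 (v := v)
    (x := fun p => (Z \ Finset.univ.image v).orderEmbOfCardLe hcard (g p))
    (fun p q h => hg.injective (((Z \ Finset.univ.image v).orderEmbOfCardLe hcard).injective h))
    (fun p l h => by
      have := hmem (g p)
      rw [Finset.mem_sdiff] at this
      exact this.2 (Finset.mem_image.2 ⟨l, Finset.mem_univ _, h.symm⟩))
    (fun p q p' q' h h' => (Fintype.equivFin (BD.Col N k)).injective (hh p q p' q' h h'))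
  obtain ⟨p, hp⟩ := h3 X hX hf D N (N + 3) k hN le_rfl v _ e hom
  have := hmem (g p)
  rw [Finset.mem_sdiff] at this
  exact hZ _ this.1 hp

end MP8a95ee.Npc
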