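import Pool.Agent.Work.MP_8a95ee_gt.Npc.Stmts3

/-!
# Nonpositively curved cubulations: statements of the items, part 4

The uniform inequality: the sum of the absolute values of the local curvatures is bounded by a
constant, depending only on the dimension and the maximal degree, times the norm.
-/

set_option autoImplicit false

namespace MP8a95ee.Npc

open Classical

/-- UBD: the bound in `S_BD` depends only on `N` and `k` -/
def S_UBD : Prop := ∀ N k : ℕ, ∃ B : ℕ, ∀ (X : SimpleGraph ℕ) (_ : IsMedianGraph X)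
  (_ : LocFin X) (_ : ∀ z, (nbr X z).card ≤ N) (v : Fin (k + 1) → ℕ) (Z : Finset ℕ),
  (∀ z ∈ Z, ¬ KF (link X z) fun l => In X z (v l)) → Z.card ≤ B

/-- UFU: from functions at the representatives of the orbits to a compatible family -/
def S_UFU : Prop := ∀ (X : SimpleGraph ℕ) (_ : IsMedianGraph X) (_ : LocFin X)
  (Γ : Subgroup (Equiv.Perm ℕ)) (F : Finset ℕ) (_ : IsDeck X Γ F) (m : ℕ)
  (f0 : ℕ → (Fin (m + 1) → Finset ℕ) → ℝ) (C : ℝ) (_ : 0 ≤ C)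
  (_ : ∀ x ∈ F, ∀ T : Fin (m + 2) → Finset ℕ, KF (link X x) T → RA.dl (f0 x) T = 0)
  (_ : ∀ x ∈ F, ∀ T : Fin (m + 1) → Finset ℕ, (∀ i, T i ∈ link X x) → |f0 x T| ≤ C),
  ∃ f : ℕ → (Fin (m + 1) → Finset ℕ) → ℝ, Equi Γ f ∧
    (∀ z, ∀ T : Fin (m + 2) → Finset ℕ, KF (link X z) T → RA.dl (f z) T = 0) ∧
    (∀ z T, |f z T| ≤ C) ∧
    ∀ x ∈ F, ∀ T : Fin (m + 1) → Finset ℕ, (∀ i, T i ∈ link X x) → f x T = f0 x T

/-- UCO: the bounded cocycle with an explicit bound -/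
def S_UCO : Prop := ∀ (X : SimpleGraph ℕ) (_ : IsMedianGraph X) (_ : LocFin X)
  (m B : ℕ) (_ : ∀ (v : Fin (m + 2) → ℕ) (Z : Finset ℕ),
    (∀ z ∈ Z, ¬ KF (link X z) fun l => In X z (v l)) → Z.card ≤ B)
  (f : ℕ → (Fin (m + 1) → Finset ℕ) → ℝ)
  (_ : ∀ z, ∀ T : Fin (m + 2) → Finset ℕ, KF (link X z) T → RA.dl (f z) T = 0)
  (C : ℝ) (_ : ∀ z T, |f z T| ≤ C), ∀ v : Fin (m + 2) → ℕ, |ct X f v| ≤ B * ((m + 2) * C)

/-- URE: relabelling of the vertices by a permutation -/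
def S_URE : Prop := ∀ (L : Finset (Finset ℕ)) (σ : Equiv.Perm ℕ) (m : ℕ),
  (∀ {k : ℕ} (T : Fin k → Finset ℕ),
    KF (L.image fun s => s.image σ) (fun i => (T i).image σ) ↔ KF L T) ∧
  (∀ o : (Fin (m + 1) → ℕ) → ℤ, IsOrient (L.image fun s => s.image σ) (m + 1) o →
    IsOrient L (m + 1) fun s => o fun i => σ (s i)) ∧
  ∀ (o : (Fin (m + 1) → ℕ) → ℤ) (f : (Fin (m + 1) → Finset ℕ) → ℝ),
    Finsupp.linearCombination ℝ f (RA.zeta (L.image fun s => s.image σ) o) =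
      Finsupp.linearCombination ℝ (fun T => f fun i => (T i).image σ)
        (RA.zeta L fun s => o fun i => σ (s i))

/-- UOR: two orientations of a homology sphere are proportional -/
def S_UOR : Prop := ∀ (L : Finset (Finset ℕ)) (_ : FlagC L) (m : ℕ)
  (_ : RA.IsHSphere L (m + 1)) (o o' : (Fin (m + 1) → ℕ) → ℤ) (_ : IsOrient L (m + 1) o)
  (_ : IsOrient L (m + 1) o'), ∃ s0 : Fin (m + 1) → ℕ, o s0 ≠ 0 ∧ o' s0 ≠ 0 ∧
  (o s0 : ℝ) • RA.zeta L o' = (o' s0 : ℝ) • RA.zeta L o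

/-- ULO: the local functions with a uniform bound -/
def S_ULO : Prop := ∀ m N : ℕ, ∃ C : ℝ, 0 ≤ C ∧ ∀ (L : Finset (Finset ℕ)) (_ : FlagC L)
  (_ : (verts L).card ≤ N) (_ : RA.IsHSphere L (m + 1)) (o : (Fin (m + 1) → ℕ) → ℤ)
  (_ : IsOrient L (m + 1) o), ∃ f : (Fin (m + 1) → Finset ℕ) → ℝ,
  (∀ T : Fin (m + 2) → Finset ℕ, KF L T → RA.dl f T = 0) ∧
  (∀ T : Fin (m + 1) → Finset ℕ, (∀ i, T i ∈ L) → |f T| ≤ C) ∧
  |∑ s ∈ L, (-1 / 2 : ℝ) ^ s.card| ≤ Finsupp.linearCombination ℝ f (RA.zeta L o)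

/-- the uniform main theorem -/
def S_UMain : Prop := ∀ m N : ℕ, ∃ c : ℝ, 0 < c ∧
  ∀ (X : SimpleGraph ℕ) (_ : IsMedianGraph X) (_ : LocFin X) (_ : ∀ x, (nbr X x).card ≤ N)
    (_ : ∀ x, RA.IsHSphere (link X x) (m + 1))
    (Γ : Subgroup (Equiv.Perm ℕ)) (F : Finset ℕ) (_ : IsDeck X Γ F)
    (o : ℕ → (Fin (m + 1) → ℕ) → ℤ) (_ : Oriented X Γ (m + 1) o)
    (Y : Type) [TopologicalSpace Y] (f : C(Y, Mfd X Γ)) (lam : ℝ)
    (z : SChain Y (m + 1)) (w : SChain (Mfd X Γ) (m + 2)),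
    push f z = lam • fundCycle X Γ F o + bd w →
    c * |lam| * ∑ x ∈ F, |∑ s ∈ link X x, (-1 / 2 : ℝ) ^ s.card| ≤ l1 z

end MP8a95ee.Npc
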