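import Pool.Agent.Work.MP_8a95ee_gt.Npc.Stmts

/-!
# Nonpositively curved cubulations: EV3, evaluation of a cochain on the fundamental cycle
-/

set_option autoImplicit false

namespace MP8a95ee.Npc

open Classical

namespace EV3

/-- evaluation as a linear map -/
noncomputable def ev {Y : Type} [TopologicalSpace Y] {n : ℕ} (C : SSimplex Y n → ℝ) :
    SChain Y n →ₗ[ℝ] ℝ :=
  Finsupp.linearCombination ℝ C

theorem ev_apply {Y : Type} [TopologicalSpace Y] {n : ℕ} (C : SSimplex Y n → ℝ)
    (z : SChain Y n) : ev C z = z.sum fun σ a => a * C σ := by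
  simp only [ev, Finsupp.linearCombination_apply, smul_eq_mul]

theorem ev_push_single {X Y : Type} [TopologicalSpace X] [TopologicalSpace Y] (f : C(X, Y))
    {n : ℕ} (C : SSimplex Y n → ℝ) (τ : SSimplex X n) :
    ev C (push f (Finsupp.single τ 1)) = C (f.comp τ) := by
  rw [ev_apply, push]
  simp

end EV3

theorem prfEV3 (h1 : S_ZC3) : S_EV3 := by
  intro X hX hL Γ F n o ho C c hC
  obtain ⟨z1, z2, -, -, -⟩ := h1 X hX hL
  rw [← EV3.ev_apply, fundCycle, map_sum]
  refine Finset.sum_congr rfl fun x _ => ?_
  rw [map_sum, Dom, Finset.sum_filter]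
  refine Finset.sum_congr rfl fun s hs => ?_
  rw [map_smul, smul_eq_mul]
  by_cases h : o x s = 0
  · simp [h]
  · have hlink := ho.supp x s h
    have hinj : Function.Injective s := by
      intro i j hij
      by_contra hne
      have h2 := ho.alt x s i j hne
      have h3 : s ∘ Equiv.swap i j = s := by
        funext k
        rw [Function.comp_apply]
        by_cases hki : k = i
        · rw [hki, Equiv.swap_apply_left, hij]
        · by_cases hkj : k = j
          · rw [hkj, Equiv.swap_apply_right, hij]
          · rw [Equiv.swap_apply_of_ne_of_ne hki hkj]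
      rw [h3] at h2
      omega
    rw [if_pos ⟨hinj, hlink⟩]
    obtain ⟨τ, hτ, hch⟩ := z1 n x s hlink
    rw [hch, EV3.ev_push_single]
    congr 1
    apply hC τ
    intro k y
    rw [hτ (vtx k)]
    refine z2 n x s ?_ k y
    rw [Dom, Finset.mem_filter]
    exact ⟨hs, hinj, hlink⟩

end MP8a95ee.Npc
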