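import Pool.Agent.Work.MP_8a95ee_gt.Npc.Stmts2

/-!
# FU: from a function at one vertex to a compatible family
-/

set_option autoImplicit false

namespace MP8a95ee.Npc

open Classical

namespace FU

theorem image_inv_image (g : Equiv.Perm ℕ) (s : Finset ℕ) :
    (s.image (g⁻¹ : Equiv.Perm ℕ)).image g = s := by
  rw [Finset.image_image]
  conv_rhs => rw [← Finset.image_id (s := s)]
  refine Finset.image_congr fun a _ => ?_
  simp

theorem image_mul (g h : Equiv.Perm ℕ) (s : Finset ℕ) :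
    (s.image h).image g = s.image (g * h : Equiv.Perm ℕ) := by
  rw [Finset.image_image]
  rfl

theorem adj_image {L L' : Finset (Finset ℕ)} (σ : Equiv.Perm ℕ)
    (h : ∀ s : Finset ℕ, s.image σ ∈ L' ↔ s ∈ L) {a b : ℕ} (hab : RA.Adj L a b) :
    RA.Adj L' (σ a) (σ b) := by
  refine ⟨fun he => hab.1 (σ.injective he), ?_⟩
  have h1 := (h {a, b}).2 hab.2
  rwa [Finset.image_insert, Finset.image_singleton] at h1

theorem KF_image {L L' : Finset (Finset ℕ)} (σ : Equiv.Perm ℕ)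
    (h : ∀ s : Finset ℕ, s.image σ ∈ L' ↔ s ∈ L) {k : ℕ} (T : Fin k → Finset ℕ)
    (hT : KF L T) : KF L' (fun i => (T i).image σ) := by
  obtain ⟨h1, h2⟩ := hT
  refine ⟨fun i => ⟨(h _).2 (h1 i).1, (h1 i).2.image _⟩, ?_⟩
  rcases h2 with ⟨u, hu⟩ | ⟨⟨P, Q⟩, ⟨g1, g2, g3, g4, g5⟩, f1, f2, f3⟩
  · exact Or.inl ⟨σ u, fun i => Finset.mem_image_of_mem _ (hu i)⟩
  · simp only at g1 g2 g3 g4 g5 f1 f2 f3
    refine Or.inr ⟨(P.image σ, Q.image σ), ⟨(h _).2 g1, (h _).2 g2, g3.image _, g4.image _, ?_⟩,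
      ?_, ?_, ?_⟩
    · exact (Finset.disjoint_image σ.injective).2 g5
    · intro i t ht htn c hc
      obtain ⟨t', ht', rfl⟩ := Finset.mem_image.1 ht
      simp only at htn hc
      rw [← Finset.image_union] at htn hc
      obtain ⟨c', hc', rfl⟩ := Finset.mem_image.1 hc
      exact adj_image σ h (f1 i t' ht' (fun hh => htn (Finset.mem_image_of_mem _ hh)) c' hc')
    · intro q hq
      obtain ⟨q', hq', rfl⟩ := Finset.mem_image.1 hq
      obtain ⟨p', hp', hp⟩ := f2 q' hq'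
      refine ⟨σ p', Finset.mem_image_of_mem _ hp', fun i => ?_⟩
      rcases hp i with hh | hh
      · exact Or.inl (Finset.mem_image_of_mem _ hh)
      · exact Or.inr (Finset.mem_image_of_mem _ hh)
    · intro q hq
      obtain ⟨q', hq', rfl⟩ := Finset.mem_image.1 hq
      obtain ⟨p', hp', hp⟩ := f3 q' hq'
      refine ⟨σ p', Finset.mem_image_of_mem _ hp', fun i => ?_⟩
      rcases hp i with hh | hh
      · exact Or.inl (Finset.mem_image_of_mem _ hh)
      · exact Or.inr (Finset.mem_image_of_mem _ hh)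

/-- the value at a vertex `g x0` -/
noncomputable def val (L : Finset (Finset ℕ)) {k : ℕ} (f0 : (Fin k → Finset ℕ) → ℝ)
    (g : Equiv.Perm ℕ) (T : Fin k → Finset ℕ) : ℝ :=
  if ∀ i, (T i).image (g⁻¹ : Equiv.Perm ℕ) ∈ L then
    f0 (fun i => (T i).image (g⁻¹ : Equiv.Perm ℕ)) else 0

/-- the family -/
noncomputable def fam (L : Finset (Finset ℕ)) (Γ : Subgroup (Equiv.Perm ℕ)) (x0 : ℕ) {k : ℕ}
    (f0 : (Fin k → Finset ℕ) → ℝ) (z : ℕ) (T : Fin k → Finset ℕ) : ℝ :=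
  if h : ∃ g ∈ Γ, g x0 = z then val L f0 h.choose T else 0

theorem fam_eq (L : Finset (Finset ℕ)) (Γ : Subgroup (Equiv.Perm ℕ)) (x0 : ℕ) {k : ℕ}
    (f0 : (Fin k → Finset ℕ) → ℝ) (hfree : ∀ g ∈ Γ, ∀ x, g x = x → g = 1)
    (g : Equiv.Perm ℕ) (hg : g ∈ Γ) (T : Fin k → Finset ℕ) :
    fam L Γ x0 f0 (g x0) T = val L f0 g T := by
  have h : ∃ g' ∈ Γ, g' x0 = g x0 := ⟨g, hg, rfl⟩
  unfold fam
  rw [dif_pos h]
  have h1 := h.choose_spec
  have h2 : g⁻¹ * h.choose = 1 := by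
    apply hfree _ (Γ.mul_mem (Γ.inv_mem hg) h1.1) x0
    rw [Equiv.Perm.mul_apply, h1.2]
    simp
  have h3 : h.choose = g := by
    rw [inv_mul_eq_one] at h2
    exact h2.symm
  rw [h3]

theorem val_image (L : Finset (Finset ℕ)) {k : ℕ} (f0 : (Fin k → Finset ℕ) → ℝ)
    (g h : Equiv.Perm ℕ) (T : Fin k → Finset ℕ) :
    val L f0 (g * h) (fun i => (T i).image g) = val L f0 h T := by
  have h1 : ∀ i, ((T i).image g).image ((g * h)⁻¹ : Equiv.Perm ℕ) =
      (T i).image (h⁻¹ : Equiv.Perm ℕ) := by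
    intro i
    rw [image_mul, mul_inv_rev, mul_assoc, inv_mul_cancel, mul_one]
  unfold val
  simp only [h1]

end FU

theorem prfFU (h1 : S_CU5) (h2 : S_PT3) : S_FU := by
  intro X hX hf Γ F hD m x0 hx0 f0 hf0
  have hfree := (h2 X hX hf Γ F hD).2.1
  refine ⟨FU.fam (link X x0) Γ x0 f0, ?_, ?_, ?_, ?_, ?_⟩
  · intro g hg z T
    by_cases hz : ∃ g' ∈ Γ, g' x0 = z
    · obtain ⟨g', hg', rfl⟩ := hz
      rw [FU.fam_eq _ _ _ _ hfree g' hg']
      have h3 : g (g' x0) = (g * g') x0 := rfl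
      rw [h3, FU.fam_eq _ _ _ _ hfree (g * g') (Γ.mul_mem hg hg'), FU.val_image]
    · have hz' : ¬ ∃ g' ∈ Γ, g' x0 = g z := by
        rintro ⟨g', hg', h3⟩
        refine hz ⟨g⁻¹ * g', Γ.mul_mem (Γ.inv_mem hg) hg', ?_⟩
        rw [Equiv.Perm.mul_apply, h3]
        simp
      unfold FU.fam
      rw [dif_neg hz, dif_neg hz']
  · intro z T hT
    by_cases hz : ∃ g' ∈ Γ, g' x0 = z
    · obtain ⟨g, hg, rfl⟩ := hz
      have haut : IsAut X (g⁻¹ : Equiv.Perm ℕ) := hD.auto g⁻¹ (Γ.inv_mem hg)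
      have h4 := (h1 X hX hf g⁻¹ haut).2.2.2.1
      have h5 : ∀ s : Finset ℕ, s.image (g⁻¹ : Equiv.Perm ℕ) ∈ link X x0 ↔
          s ∈ link X (g x0) := by
        intro s
        have h6 := h4 (g x0) s
        have h7 : (g⁻¹ : Equiv.Perm ℕ) (g x0) = x0 := by simp
        rw [h7] at h6
        exact h6
      have h6 := hf0 _ (FU.KF_image g⁻¹ h5 T hT)
      rw [← h6]
      unfold RA.dl
      refine Finset.sum_congr rfl fun i _ => ?_
      congr 1
      rw [FU.fam_eq _ _ _ _ hfree g hg]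
      unfold FU.val
      rw [if_pos]
      intro j
      exact (h5 _).2 (hT.1 _).1
    · unfold RA.dl
      refine Finset.sum_eq_zero fun i _ => ?_
      have : FU.fam (link X x0) Γ x0 f0 z (fun j => T (i.succAbove j)) = 0 := by
        unfold FU.fam
        rw [dif_neg hz]
      rw [this, smul_zero]
  · refine ⟨∑ S ∈ Fintype.piFinset (fun _ : Fin (m + 1) => link X x0), |f0 S|, ?_⟩
    have h0 : 0 ≤ ∑ S ∈ Fintype.piFinset (fun _ : Fin (m + 1) => link X x0), |f0 S| :=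
      Finset.sum_nonneg fun S _ => abs_nonneg _
    intro z T
    unfold FU.fam
    split_ifs with h
    · unfold FU.val
      split_ifs with h3
      · exact Finset.single_le_sum (f := fun S => |f0 S|) (fun S _ => abs_nonneg _)
          (Fintype.mem_piFinset.2 h3)
      · rw [abs_zero]
        exact h0
    · rw [abs_zero]
      exact h0
  · intro x hx hne
    have hz : ¬ ∃ g' ∈ Γ, g' x0 = x := by
      intro h3
      exact hne ((hD.rep x0).unique ⟨hx, h3⟩ ⟨hx0, 1, Γ.one_mem, rfl⟩)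
    funext T
    unfold FU.fam
    rw [dif_neg hz]
    rfl
  · intro T hT
    have h3 := FU.fam_eq (link X x0) Γ x0 f0 hfree 1 Γ.one_mem T
    have h4 : (1 : Equiv.Perm ℕ) x0 = x0 := rfl
    rw [h4] at h3
    rw [h3]
    have h5 : ∀ i, (T i).image ((1 : Equiv.Perm ℕ)⁻¹ : Equiv.Perm ℕ) = T i := by
      intro i
      rw [inv_one]
      exact Finset.image_id
    unfold FU.val
    simp only [h5]
    rw [if_pos hT]

end MP8a95ee.Npc
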