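import Pool.Agent.Work.MP_8a95ee_gt.Npc.Stmts3
import Pool.Agent.Work.MP_8a95ee_gt.R.ItemB5
import Pool.Agent.Work.MP_8a95ee_gt.Bd.B05

/-!
# Item PS3: the chain map to tuples of classes
-/

set_option autoImplicit false

namespace MP8a95ee.Npc

namespace PS3

open Classical

/-- the chosen class -/
noncomputable def ch (L : Finset (Finset ℕ)) {k : ℕ} (T : Fin k → Finset ℕ) : Finset ℕ :=
  if h : ∃ u, Cand L T {u} then {h.choose}
  else if h : ∃ C, Cand L T C then h.choose else ∅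

theorem ch_spec {L : Finset (Finset ℕ)} {k : ℕ} {T : Fin k → Finset ℕ} (h : ∃ C, Cand L T C) :
    Cand L T (ch L T) := by
  unfold ch
  by_cases h1 : ∃ u, Cand L T {u}
  · rw [dif_pos h1]
    exact h1.choose_spec
  · rw [dif_neg h1, dif_pos h]
    exact h.choose_spec

theorem ch_card {L : Finset (Finset ℕ)} {k : ℕ} {T : Fin k → Finset ℕ}
    (h : ∃ u, Cand L T {u}) : (ch L T).card = 1 := by
  unfold ch
  rw [dif_pos h]
  exact Finset.card_singleton _

/-- the chain map -/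
noncomputable def Psi (L : Finset (Finset ℕ)) : ∀ k, (Fin k → Finset ℕ) → RA.Ch (Finset ℕ) k
  | 0, T => Finsupp.single T 1
  | k + 1, T => Tup.cons (ch L T)
      (∑ i : Fin (k + 1), ((-1 : ℝ) ^ (i : ℕ)) • Psi L k fun j => T (i.succAbove j))

theorem Psi_bd (L : Finset (Finset ℕ)) : ∀ k (T : Fin (k + 1) → Finset ℕ),
    RA.bdT (Psi L (k + 1) T) =
      ∑ i : Fin (k + 1), ((-1 : ℝ) ^ (i : ℕ)) • Psi L k fun j => T (i.succAbove j)
  | 0, T => by
    rw [RA.A6.bdT_eq]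
    change Tup.bdry (Tup.cons (ch L T) _) = _
    rw [Tup.bdry_cons_zero]
  | k + 1, T => by
    rw [RA.A6.bdT_eq]
    change Tup.bdry (Tup.cons (ch L T) _) = _
    rw [Tup.bdry_cons, ← RA.A6.bdT_eq, map_sum]
    have h0 : ∑ i : Fin (k + 2), RA.bdT (((-1 : ℝ) ^ (i : ℕ)) •
        Psi L (k + 1) fun j => T (i.succAbove j)) = 0 := by
      have h1 : ∀ i : Fin (k + 2), RA.bdT (((-1 : ℝ) ^ (i : ℕ)) •
          Psi L (k + 1) fun j => T (i.succAbove j)) =
          ((-1 : ℝ) ^ (i : ℕ)) • ∑ j : Fin (k + 1), ((-1 : ℝ) ^ (j : ℕ)) •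
            Psi L k fun l => T (i.succAbove (j.succAbove l)) := by
        intro i
        rw [map_smul, Psi_bd L k]
      rw [Finset.sum_congr rfl fun i _ => h1 i]
      exact RA.dsum (fun s => Psi L k s) T
    rw [h0, map_zero, sub_zero]

theorem supp_cons {k : ℕ} {a : Finset ℕ} {c : RA.Ch (Finset ℕ) k} {s : Fin (k + 1) → Finset ℕ}
    (h : s ∈ (Tup.cons a c).support) : ∃ s' ∈ c.support, s = Fin.cons a s' := by
  rw [Finsupp.mem_support_iff] at h
  unfold Tup.cons at h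
  rw [Finsupp.linearCombination_apply, Finsupp.sum, Finsupp.finsetSum_apply] at h
  obtain ⟨s', hs', h1⟩ := Finset.exists_ne_zero_of_sum_ne_zero h
  refine ⟨s', hs', ?_⟩
  by_contra hne
  apply h1
  rw [Finsupp.smul_apply, Finsupp.single_apply, if_neg fun h => hne h.symm, smul_zero]

theorem supp_succ {L : Finset (Finset ℕ)} {k : ℕ} {T : Fin (k + 1) → Finset ℕ}
    {s : Fin (k + 1) → Finset ℕ} (h : s ∈ (Psi L (k + 1) T).support) :
    ∃ (i : Fin (k + 1)) (s' : Fin k → Finset ℕ),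
      s' ∈ (Psi L k fun j => T (i.succAbove j)).support ∧ s = Fin.cons (ch L T) s' := by
  obtain ⟨s', hs', hs⟩ := supp_cons h
  rw [Finsupp.mem_support_iff, Finsupp.finsetSum_apply] at hs'
  obtain ⟨i, -, hi⟩ := Finset.exists_ne_zero_of_sum_ne_zero hs'
  refine ⟨i, s', ?_, hs⟩
  rw [Finsupp.mem_support_iff]
  intro h0
  apply hi
  rw [Finsupp.smul_apply, h0, smul_zero]

theorem supp_form {L : Finset (Finset ℕ)} : ∀ k (T : Fin k → Finset ℕ) (s : Fin k → Finset ℕ),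
    s ∈ (Psi L k T).support → ∀ i, ∃ (l : ℕ) (g : Fin (l + 1) → Fin k),
      s i = ch L fun j => T (g j)
  | 0, _, _, _, i => i.elim0
  | k + 1, T, s, hs, i => by
    obtain ⟨i0, s', hs', rfl⟩ := supp_succ hs
    refine Fin.cases ?_ (fun j => ?_) i
    · exact ⟨k, fun j => j, rfl⟩
    · obtain ⟨l, g, hg⟩ := supp_form k _ s' hs' j
      exact ⟨l, fun j => i0.succAbove (g j), by rw [Fin.cons_succ, hg]⟩

theorem KF_comp {L : Finset (Finset ℕ)} {k l : ℕ} {T : Fin k → Finset ℕ} (h : KF L T)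
    (g : Fin l → Fin k) : KF L fun j => T (g j) := by
  obtain ⟨h1, h2⟩ := h
  refine ⟨fun i => h1 _, ?_⟩
  rcases h2 with ⟨u, hu⟩ | ⟨p, hp1, hp2, hp3, hp4⟩
  · exact Or.inl ⟨u, fun i => hu _⟩
  · refine Or.inr ⟨p, hp1, fun i => hp2 _, ?_, ?_⟩
    · intro q hq
      obtain ⟨a, ha, ha'⟩ := hp3 q hq
      exact ⟨a, ha, fun i => ha' _⟩
    · intro q hq
      obtain ⟨a, ha, ha'⟩ := hp4 q hq
      exact ⟨a, ha, fun i => ha' _⟩

theorem KF_of_KG {L : Finset (Finset ℕ)} {G : Finset ℕ × Finset ℕ → Prop} {k : ℕ}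
    {T : Fin k → Finset ℕ} (h : RA.KG L G T) : KF L T := by
  obtain ⟨h1, h2⟩ := h
  refine ⟨h1, ?_⟩
  rcases h2 with h2 | ⟨p, hp, -, hF⟩
  · exact Or.inl h2
  · refine Or.inr ⟨p, hp, fun i => (hF i).2, ?_, ?_⟩
    · intro q hq
      obtain ⟨a, ha⟩ := hp.2.2.1
      refine ⟨a, ha, fun i => ?_⟩
      rcases (hF i).1 with h | h
      · exact Or.inl (h.1 ha)
      · exact Or.inr (h.1 hq)
    · intro q hq
      obtain ⟨a, ha⟩ := hp.2.2.2.1
      refine ⟨a, ha, fun i => ?_⟩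
      rcases (hF i).1 with h | h
      · exact Or.inl (h.1 hq)
      · exact Or.inr (h.1 ha)

theorem adj_symm {L : Finset (Finset ℕ)} {a b : ℕ} (h : RA.Adj L a b) : RA.Adj L b a :=
  ⟨h.1.symm, by rw [Finset.pair_comm]; exact h.2⟩

theorem Cmp_symm {L : Finset (Finset ℕ)} {C C' : Finset ℕ} (h : Cmp L C C') : Cmp L C' C := by
  rcases h with h | h | h | h
  · exact Or.inl h.symm
  · exact Or.inr (Or.inl fun a ha b hb => adj_symm (h b hb a ha))
  · exact Or.inr (Or.inr (Or.inr h))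
  · exact Or.inr (Or.inr (Or.inl h))

theorem cand {L : Finset (Finset ℕ)} (h1 : S_PS1) (hL : FlagC L) {k l : ℕ}
    {T : Fin k → Finset ℕ} (hT : KF L T) (g : Fin (l + 1) → Fin k) :
    Cand L (fun j => T (g j)) (ch L fun j => T (g j)) :=
  ch_spec (h1 L hL l _ (KF_comp hT g)).1

theorem supp_cmp {L : Finset (Finset ℕ)} (h1 : S_PS1) (h2 : S_PS2) (hL : FlagC L) :
    ∀ k (T : Fin k → Finset ℕ), KF L T → ∀ s ∈ (Psi L k T).support, CmpT L s
  | 0, _, _, _, _ => ⟨fun i => i.elim0, fun i => i.elim0⟩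
  | k + 1, T, hT, s, hs => by
    obtain ⟨i0, s', hs', rfl⟩ := supp_succ hs
    have hC : Cand L T (ch L T) := ch_spec (h1 L hL k T hT).1
    obtain ⟨hcl, hcm⟩ := supp_cmp h1 h2 hL k _ (KF_comp hT i0.succAbove) s' hs'
    have hnew : ∀ j, Cmp L (ch L T) (s' j) := by
      intro j
      obtain ⟨l, g, hg⟩ := supp_form k _ s' hs' j
      rw [hg]
      exact h2 L hL k l T (fun j => i0.succAbove (g j)) _ _ hC
        (cand h1 hL hT fun j => i0.succAbove (g j))
    refine ⟨fun i => ?_, fun i j => ?_⟩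
    · refine Fin.cases ?_ (fun j => ?_) i
      · exact hC.1
      · exact hcl j
    · refine Fin.cases ?_ (fun i => ?_) i
      · refine Fin.cases ?_ (fun j => ?_) j
        · exact Or.inl rfl
        · exact hnew j
      · refine Fin.cases ?_ (fun j => ?_) j
        · exact Cmp_symm (hnew i)
        · exact hcm i j

theorem supp_Wt {L : Finset (Finset ℕ)} (h1 : S_PS1) (hL : FlagC L) {k : ℕ}
    {T : Fin k → Finset ℕ} (hT : KF L T) {s : Fin k → Finset ℕ} (hs : s ∈ (Psi L k T).support)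
    (i : Fin k) : s i ⊆ RA.Wt T := by
  obtain ⟨l, g, hg⟩ := supp_form k _ s hs i
  obtain ⟨-, -, h3, h4⟩ := cand h1 hL hT g
  rw [hg]
  by_cases hK : RA.InK fun j => T (g j)
  · obtain ⟨u, hu, hu'⟩ := h4 hK
    rw [hu, Finset.singleton_subset_iff]
    exact RA.mem_Wt.2 ⟨g 0, hu' 0⟩
  · exact (h3 l (fun j => j) hK).trans (RA.Wt_comp T g)

end PS3

/-- PS3 -/
theorem prfPS3 (h1 : S_PS1) (h2 : S_PS2) : S_PS3 := by
  intro L hL
  refine ⟨PS3.Psi L, fun T => rfl, PS3.Psi_bd L, ?_, ?_⟩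
  · intro k T hT s hs
    exact ⟨PS3.supp_cmp h1 h2 hL k T hT s hs, fun i => PS3.supp_Wt h1 hL hT hs i⟩
  · intro k T hT s hs i
    obtain ⟨l, g, hg⟩ := PS3.supp_form k _ s hs i
    rw [hg]
    exact PS3.ch_card ((h1 L hL l _ (PS3.KF_comp (PS3.KF_of_KG hT) g)).2 (RA.KG_comp hT g))

end MP8a95ee.Npc
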