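import Pool.Agent.Work.MP_8a95ee_gt.Npc.Stmts
import Mathlib.Topology.Covering.Quotient

/-!
# TP1: the projection is a covering map
-/

set_option autoImplicit false

namespace MP8a95ee.Npc

open Classical

namespace TP1

/-- the action of `Γ` on the space: `(g • u) y = u (g⁻¹ y)` -/
@[reducible] noncomputable def act (X : SimpleGraph ℕ) (Γ : Subgroup (Equiv.Perm ℕ))
    (h : ∀ g ∈ Γ, ∀ u ∈ space X, (fun y => u (g y)) ∈ space X) : MulAction Γ (space X) where
  smul g u := ⟨fun y => (u : ℕ → ℝ) (((g⁻¹ : Γ) : Equiv.Perm ℕ) y), h _ (g⁻¹).2 _ u.2⟩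
  one_smul u := by
    apply Subtype.ext
    funext y
    change (u : ℕ → ℝ) ((((1 : Γ)⁻¹ : Γ) : Equiv.Perm ℕ) y) = (u : ℕ → ℝ) y
    simp
  mul_smul g g' u := by
    apply Subtype.ext
    funext y
    change (u : ℕ → ℝ) ((((g * g')⁻¹ : Γ) : Equiv.Perm ℕ) y) =
      (u : ℕ → ℝ) (((g'⁻¹ : Γ) : Equiv.Perm ℕ) (((g⁻¹ : Γ) : Equiv.Perm ℕ) y))
    rw [mul_inv_rev]
    rfl

end TP1

theorem prfTP1 (h1 : S_PT3) : S_TP1 := by
  intro X hX hf Γ F hD
  obtain ⟨hs, _, _, hU⟩ := h1 X hX hf Γ F hD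
  let _ := TP1.act X Γ hs
  have hsm : ∀ (g : Γ) (u : space X) (y : ℕ),
      ((g • u : space X) : ℕ → ℝ) y = (u : ℕ → ℝ) (((g⁻¹ : Γ) : Equiv.Perm ℕ) y) :=
    fun g u y => rfl
  have hq : IsQuotientCoveringMap (proj X Γ) Γ :=
    { toIsQuotientMap := isQuotientMap_quotient_mk'
      continuous_const_smul := by
        intro g
        refine Continuous.subtype_mk (continuous_pi fun y => ?_) _
        exact (continuous_apply (((g⁻¹ : Γ) : Equiv.Perm ℕ) y)).comp continuous_subtype_val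
      apply_eq_iff_mem_orbit := by
        intro u v
        have e : proj X Γ u = proj X Γ v ↔ ∃ g ∈ Γ, ∀ y, (v : ℕ → ℝ) (g y) = (u : ℕ → ℝ) y :=
          Quotient.eq
        rw [e, MulAction.mem_orbit_iff]
        constructor
        · rintro ⟨g, hg, h⟩
          refine ⟨(⟨g, hg⟩ : Γ)⁻¹, ?_⟩
          apply Subtype.ext
          funext y
          rw [hsm, inv_inv]
          exact h y
        · rintro ⟨g, h⟩
          refine ⟨((g⁻¹ : Γ) : Equiv.Perm ℕ), (g⁻¹).2, fun y => ?_⟩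
          rw [← hsm, h]
      disjoint := by
        intro u
        obtain ⟨U, hUo, huU, hdis⟩ := hU u u.2
        refine ⟨Subtype.val ⁻¹' U, (hUo.preimage continuous_subtype_val).mem_nhds huU, ?_⟩
        rintro g ⟨_, ⟨w, hw, rfl⟩, hgw⟩
        by_contra hg
        refine hdis ((g⁻¹ : Γ) : Equiv.Perm ℕ) (g⁻¹).2 ?_ w w.2 hw hgw
        intro h
        apply hg
        have : g⁻¹ = 1 := Subtype.ext h
        exact inv_eq_one.mp this }
  exact hq.isCoveringMap

end MP8a95ee.Npc
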