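import Pool.Agent.Work.MP_8a95ee_gt.Npc.Stmts
import Pool.Agent.Work.MP_8a95ee_gt.Bd.B01

/-!
Item ZC4: the fundamental cycle is a cycle.
-/

set_option autoImplicit false

namespace MP8a95ee.Npc

open Classical

namespace ZC4

/-- a map from the standard simplex to the space as a chain of the quotient -/
noncomputable def ch (X : SimpleGraph ℕ) (Γ : Subgroup (Equiv.Perm ℕ)) {n : ℕ}
    (φ : stdSimplex ℝ (Fin (n + 1)) → ℕ → ℝ) : SChain (Mfd X Γ) n :=
  if h : Continuous φ ∧ ∀ t, φ t ∈ space X then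
    Finsupp.single ((proj X Γ).comp ⟨fun t => ⟨φ t, h.2 t⟩, h.1.subtype_mk _⟩) 1
  else 0

theorem ch_pos {X : SimpleGraph ℕ} {Γ : Subgroup (Equiv.Perm ℕ)} {n : ℕ}
    {φ : stdSimplex ℝ (Fin (n + 1)) → ℕ → ℝ} (h1 : Continuous φ) (h2 : ∀ t, φ t ∈ space X) :
    ch X Γ φ = Finsupp.single ((proj X Γ).comp ⟨fun t => ⟨φ t, h2 t⟩, h1.subtype_mk _⟩) 1 := by
  unfold ch
  rw [dif_pos ⟨h1, h2⟩]

theorem push_affChain (X : SimpleGraph ℕ) (Γ : Subgroup (Equiv.Perm ℕ)) {n : ℕ} (x : ℕ)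
    (s : Fin n → ℕ) : push (proj X Γ) (affChain X x s) = ch X Γ (affPt X x s) := by
  unfold affChain
  by_cases h : ∀ t, affPt X x s t ∈ space X
  · rw [dif_pos h, ch_pos (continuous_affPt X x s) h]
    unfold push
    rw [Finsupp.mapDomain_single]
  · rw [dif_neg h]
    unfold ch push
    rw [dif_neg fun h' => h h'.2, Finsupp.mapDomain_zero]

theorem bd_ch {X : SimpleGraph ℕ} {Γ : Subgroup (Equiv.Perm ℕ)} {n : ℕ}
    {φ : stdSimplex ℝ (Fin (n + 1 + 1)) → ℕ → ℝ} (h1 : Continuous φ) (h2 : ∀ t, φ t ∈ space X)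
    (r : ℝ) : bd (r • ch X Γ φ) = ∑ i : Fin (n + 2),
      ((-1 : ℝ) ^ (i : ℕ)) • (r • ch X Γ fun t => φ (stdSimplex.map i.succAbove t)) := by
  rw [ch_pos h1 h2, Finsupp.smul_single, smul_eq_mul, mul_one, B5.bd_single]
  refine Finset.sum_congr rfl fun i _ => ?_
  have h3 : Continuous fun t => φ (stdSimplex.map i.succAbove t) :=
    h1.comp (stdSimplex.continuous_map _)
  rw [ch_pos h3 fun t => h2 _, Finsupp.smul_single, Finsupp.smul_single, smul_eq_mul, smul_eq_mul,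
    mul_one]
  rfl

/-- simplices which differ by an element of the group -/
theorem ch_act {X : SimpleGraph ℕ} {Γ : Subgroup (Equiv.Perm ℕ)} {n : ℕ}
    {φ ψ : stdSimplex ℝ (Fin (n + 1)) → ℕ → ℝ} {g : Equiv.Perm ℕ} (hg : g ∈ Γ)
    (h1 : Continuous φ) (h1' : Continuous ψ)
    (h2 : ∀ t, φ t ∈ space X) (h2' : ∀ t, ψ t ∈ space X) (h : ∀ t y, ψ t (g y) = φ t y) :
    ch X Γ ψ = ch X Γ φ := by
  rw [ch_pos h1 h2, ch_pos h1' h2']
  congr 1
  refine ContinuousMap.ext fun t => ?_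
  refine (Quotient.sound ?_).symm
  exact ⟨g, hg, fun y => h t y⟩

theorem o_eq_zero {X : SimpleGraph ℕ} {Γ : Subgroup (Equiv.Perm ℕ)} {n : ℕ}
    {o : ℕ → (Fin n → ℕ) → ℤ} (ho : Oriented X Γ n o) {x : ℕ}
    {s : Fin n → ℕ} (hs : ¬ Function.Injective s) : o x s = 0 := by
  simp only [Function.Injective] at hs
  push Not at hs
  obtain ⟨i, j, hij, hne⟩ := hs
  have h := ho.alt x s i j hne
  have h2 : s ∘ Equiv.swap i j = s := by
    funext k
    simp only [Function.comp]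
    by_cases hk : k = i
    · subst hk
      rw [Equiv.swap_apply_left]
      exact hij.symm
    · by_cases hk' : k = j
      · subst hk'
        rw [Equiv.swap_apply_right]
        exact hij
      · rw [Equiv.swap_apply_of_ne_of_ne hk hk']
  rw [h2] at h
  omega

theorem mem_Dom {X : SimpleGraph ℕ} {n x : ℕ} {s : Fin n → ℕ} :
    s ∈ Dom X n x ↔ Function.Injective s ∧ Finset.univ.image s ∈ link X x := by
  unfold Dom
  rw [Finset.mem_filter, Fintype.mem_piFinset]
  constructor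
  · exact fun h => h.2
  · intro h
    refine ⟨fun i => ?_, h⟩
    exact (mem_link.1 h.2).1 (Finset.mem_image_of_mem _ (Finset.mem_univ i))

/-- sums over all tuples are sums over the tuples of directions of cubes -/
theorem sum_Dom {X : SimpleGraph ℕ} {Γ : Subgroup (Equiv.Perm ℕ)} {n : ℕ}
    {o : ℕ → (Fin n → ℕ) → ℤ} (ho : Oriented X Γ n o) (x : ℕ) {M : Type*} [AddCommGroup M]
    (f : (Fin n → ℕ) → M) (hf : ∀ s, o x s = 0 → f s = 0) :
    ∑ s ∈ Fintype.piFinset (fun _ : Fin n => nbr X x), f s = ∑ s ∈ Dom X n x, f s := by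
  symm
  refine Finset.sum_subset (Finset.filter_subset _ _) fun s hs hs' => ?_
  apply hf
  by_contra hne
  apply hs'
  rw [mem_Dom]
  refine ⟨?_, ho.supp x s hne⟩
  by_contra hinj
  exact hne (o_eq_zero ho hinj)

section sums

variable {X : SimpleGraph ℕ} {Γ : Subgroup (Equiv.Perm ℕ)} {n : ℕ}
  {o : ℕ → (Fin (n + 1) → ℕ) → ℤ} {M : Type*} [AddCommGroup M] [Module ℝ M]

theorem sum_tail (ho : Oriented X Γ (n + 1) o) (x : ℕ) (Ψ : (Fin n → ℕ) → M) :
    ∑ s ∈ Dom X (n + 1) x, (o x s : ℝ) • Ψ (Fin.tail s) = 0 := by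
  rw [← sum_Dom ho x (fun s => (o x s : ℝ) • Ψ (Fin.tail s))
    (fun s hs => by rw [hs, Int.cast_zero, zero_smul]), B5.sum_cons]
  refine Finset.sum_eq_zero fun s _ => ?_
  simp only [Fin.tail_cons]
  rw [← Finset.sum_smul]
  have h := ho.cycle x (Fin.cons 0 s) 0
  simp only [Fin.update_cons_zero] at h
  have h3 : ∑ a ∈ nbr X x, (o x (Fin.cons a s) : ℝ) = 0 := by exact_mod_cast h
  rw [h3, zero_smul]

theorem sum_init (ho : Oriented X Γ (n + 1) o) (x : ℕ) (Ψ : (Fin n → ℕ) → M) :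
    ∑ s ∈ Dom X (n + 1) x, (o x s : ℝ) • Ψ (Fin.init s) = 0 := by
  rw [← sum_Dom ho x (fun s => (o x s : ℝ) • Ψ (Fin.init s))
    (fun s hs => by rw [hs, Int.cast_zero, zero_smul]), B5.sum_snoc]
  refine Finset.sum_eq_zero fun s _ => ?_
  simp only [Fin.init_snoc]
  rw [← Finset.sum_smul]
  have h := ho.cycle x (Fin.snoc s 0) (Fin.last n)
  simp only [Fin.update_snoc_last] at h
  have h3 : ∑ a ∈ nbr X x, (o x (Fin.snoc s a) : ℝ) = 0 := by exact_mod_cast h
  rw [h3, zero_smul]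

theorem swap_mem {x : ℕ} {s : Fin (n + 1) → ℕ} (hs : s ∈ Dom X (n + 1) x) (p q : Fin (n + 1)) :
    s ∘ Equiv.swap p q ∈ Dom X (n + 1) x := by
  rw [mem_Dom] at hs ⊢
  refine ⟨hs.1.comp (Equiv.injective _), ?_⟩
  refine link_mono hs.2 ?_
  intro b hb
  obtain ⟨j, -, rfl⟩ := Finset.mem_image.1 hb
  exact Finset.mem_image_of_mem _ (Finset.mem_univ _)

theorem sum_swap (ho : Oriented X Γ (n + 1) o) (x : ℕ) (p q : Fin (n + 1)) (hne : p ≠ q)
    (Ψ : (Fin (n + 1) → ℕ) → M)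
    (hΨ : ∀ s ∈ Dom X (n + 1) x, Ψ (s ∘ Equiv.swap p q) = Ψ s) :
    ∑ s ∈ Dom X (n + 1) x, (o x s : ℝ) • Ψ s = 0 := by
  have key : ∑ s ∈ Dom X (n + 1) x, (o x s : ℝ) • Ψ s =
      - ∑ s ∈ Dom X (n + 1) x, (o x s : ℝ) • Ψ s := by
    rw [← Finset.sum_neg_distrib]
    refine Finset.sum_bij' (fun s _ => s ∘ Equiv.swap p q) (fun s _ => s ∘ Equiv.swap p q)
      ?_ ?_ ?_ ?_ ?_
    · intro s hs
      exact swap_mem hs p q
    · intro s hs
      exact swap_mem hs p q
    · intro s _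
      funext j
      simp
    · intro s _
      funext j
      simp
    · intro s hs
      rw [hΨ s hs, ho.alt x s p q hne, Int.cast_neg, neg_smul, neg_neg]
  have h2 : (2 : ℝ) • ∑ s ∈ Dom X (n + 1) x, (o x s : ℝ) • Ψ s = 0 := by
    rw [two_smul]
    nth_rewrite 1 [key]
    exact neg_add_cancel _
  exact (smul_eq_zero.1 h2).resolve_left two_ne_zero

end sums

/-- the corner in one direction -/
theorem corner_singleton {X : SimpleGraph ℕ} (hX : IsMedianGraph X) {x a : ℕ} (hxa : X.Adj x a) :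
    corner X x {a} = a := by
  unfold corner
  have h : ∃ y, X.dist x y = ({a} : Finset ℕ).card ∧
      ∀ b ∈ ({a} : Finset ℕ), X.dist b y + 1 = X.dist x y := by
    refine ⟨a, ?_, ?_⟩
    · rw [Finset.card_singleton]
      exact SimpleGraph.dist_eq_one_iff_adj.2 hxa
    · intro b hb
      rw [Finset.mem_singleton] at hb
      subst hb
      rw [SimpleGraph.dist_self, SimpleGraph.dist_eq_one_iff_adj.2 hxa]
  rw [dif_pos h]
  have h1 := h.choose_spec
  have h2 := h1.2 a (Finset.mem_singleton_self a)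
  have h4 := h1.1
  have h5 : ({a} : Finset ℕ).card = 1 := Finset.card_singleton a
  have h3 : X.dist a h.choose = 0 := by omega
  exact (hX.conn.dist_eq_zero_iff.1 h3).symm

/-- the change of the corner in the first direction -/
theorem th_zero {X : SimpleGraph ℕ} (hX : IsMedianGraph X) (hf : LocFin X) {n x : ℕ}
    {s : Fin (n + 1) → ℕ} (hs : s ∈ Dom X (n + 1) x) :
    (th X {0} x s).1 = s 0 ∧
      Fin.tail (th X {0} x s).2 = fun j => corner X x {s 0, s j.succ} := by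
  rw [mem_Dom] at hs
  have hadj : X.Adj x (s 0) :=
    (mem_nbr hf).1 ((mem_link.1 hs.2).1 (Finset.mem_image_of_mem _ (Finset.mem_univ 0)))
  constructor
  · unfold th
    simp only [Finset.image_singleton]
    exact corner_singleton hX hadj
  · funext j
    unfold th Fin.tail rb
    simp only [Finset.image_singleton]
    congr 1
    ext b
    rw [Finset.mem_symmDiff, Finset.mem_insert, Finset.mem_singleton, Finset.mem_singleton]
    have hne : s 0 ≠ s j.succ := fun h => (Fin.succ_ne_zero j) (hs.1 h).symm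
    constructor
    · rintro (⟨h, -⟩ | ⟨h, -⟩)
      · exact Or.inl h
      · exact Or.inr h
    · rintro (h | h)
      · left
        exact ⟨h, fun h' => hne (h.symm.trans h')⟩
      · right
        exact ⟨h, fun h' => hne (h'.symm.trans h)⟩

theorem tail_mem {X : SimpleGraph ℕ} {n x : ℕ} {s : Fin (n + 1) → ℕ}
    (hs : s ∈ Dom X (n + 1) x) : Finset.univ.image (Fin.tail s) ∈ link X x := by
  rw [mem_Dom] at hs
  refine link_mono hs.2 ?_
  intro b hb
  obtain ⟨j, -, rfl⟩ := Finset.mem_image.1 hb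
  exact Finset.mem_image_of_mem _ (Finset.mem_univ _)

theorem aff_mem (h5 : S_ZC3) {X : SimpleGraph ℕ} (hX : IsMedianGraph X) (hf : LocFin X)
    {n x : ℕ} {s : Fin n → ℕ} (hs : Finset.univ.image s ∈ link X x) (t) :
    affPt X x s t ∈ space X := by
  obtain ⟨τ, hτ, -⟩ := (h5 X hX hf).1 n x s hs
  rw [← hτ t]
  exact (τ t).2

/-- the affine simplices at `x` and `g x` have the same image in the quotient -/
theorem ch_aff_act (h1 : S_CU5) (h5 : S_ZC3) {X : SimpleGraph ℕ} (hX : IsMedianGraph X)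
    (hf : LocFin X) {Γ : Subgroup (Equiv.Perm ℕ)} {g : Equiv.Perm ℕ} (hg : g ∈ Γ)
    (hga : IsAut X g) {n x : ℕ} {s : Fin n → ℕ} (hs : Finset.univ.image s ∈ link X x) :
    ch X Γ (affPt X (g x) (fun i => g (s i))) = ch X Γ (affPt X x s) := by
  obtain ⟨-, -, -, h14, -, -, h17⟩ := h1 X hX hf g hga
  have him : Finset.univ.image (fun i => g (s i)) = (Finset.univ.image s).image g := by
    rw [Finset.image_image]
    rfl
  have hs' : Finset.univ.image (fun i => g (s i)) ∈ link X (g x) := by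
    rw [him]
    exact (h14 x _).2 hs
  refine ch_act hg (continuous_affPt X _ _) (continuous_affPt X _ _) (aff_mem h5 hX hf hs)
    (aff_mem h5 hX hf hs') fun t y => ?_
  unfold affPt
  rw [him, h17 x _ hs]
  congr 1
  funext a
  unfold Sp.qaff
  refine Finset.sum_congr rfl fun k _ => ?_
  have hiff : g a ∈ Sp.pre (fun i => g (s i)) (k : ℕ) ↔ a ∈ Sp.pre s (k : ℕ) := by
    rw [Sp.mem_pre, Sp.mem_pre]
    simp only [EmbeddingLike.apply_eq_iff_eq]
  by_cases ha : a ∈ Sp.pre s (k : ℕ)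
  · rw [if_pos ha, if_pos (hiff.2 ha)]
  · rw [if_neg ha, if_neg fun h => ha (hiff.1 h)]

theorem sum_face (h1 : S_CU5) (h3 : S_ZC1) (h4 : S_ZC2) (h5 : S_ZC3)
    {X : SimpleGraph ℕ} (hX : IsMedianGraph X) (hf : LocFin X)
    {Γ : Subgroup (Equiv.Perm ℕ)} {F : Finset ℕ} (hΓ : IsDeck X Γ F) {m : ℕ}
    {o : ℕ → (Fin (m + 1) → ℕ) → ℤ} (ho : Oriented X Γ (m + 1) o) (i : Fin (m + 2)) :
    ∑ x ∈ F, ∑ s ∈ Dom X (m + 1) x,
      (o x s : ℝ) • ch X Γ (fun t => affPt X x s (stdSimplex.map i.succAbove t)) = 0 := by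
  obtain ⟨-, -, h53, h54, h55⟩ := h5 X hX hf
  by_cases h0 : i = 0
  · subst h0
    have key := h4 X hX hf Γ F hΓ (m + 1) {0} (SChain (Mfd X Γ) m)
      (fun x s => (o x s : ℝ) • ch X Γ (affPt X x (Fin.tail s))) (by
        intro g hg x s hs
        rw [ho.inv g hg x s]
        congr 1
        exact ch_aff_act h1 h5 hX hf hg (hΓ.auto g hg) (tail_mem hs))
    have h6 : ∀ x ∈ F, ∀ s ∈ Dom X (m + 1) x,
        (o x s : ℝ) • ch X Γ (fun t => affPt X x s (stdSimplex.map (Fin.succAbove 0) t)) =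
        - (fun x s => (o x s : ℝ) • ch X Γ (affPt X x (Fin.tail s))) (th X {0} x s).1
          (th X {0} x s).2 := by
      intro x _ s hs
      obtain ⟨-, -, -, h34, -⟩ := h3 X hX hf (m + 1) {0} x s hs
      have h7 := h34 Γ o ho
      rw [Finset.card_singleton, pow_one, neg_one_mul] at h7
      obtain ⟨h8, h9⟩ := th_zero hX hf hs
      simp only
      rw [h7, h9, h8, Int.cast_neg, neg_smul, neg_neg]
      congr 2
      funext t
      exact h53 m x s hs t
    rw [Finset.sum_congr rfl fun x hx => Finset.sum_congr rfl fun s hs => h6 x hx s hs]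
    simp only [Finset.sum_neg_distrib]
    rw [neg_eq_zero]
    refine key.trans ?_
    exact Finset.sum_eq_zero fun x _ => sum_tail ho x fun s => ch X Γ (affPt X x s)
  · refine Finset.sum_eq_zero fun x _ => ?_
    by_cases hl : i = Fin.last (m + 1)
    · subst hl
      rw [← sum_init ho x fun s => ch X Γ (affPt X x s)]
      refine Finset.sum_congr rfl fun s hs => ?_
      congr 2
      funext t
      exact h54 m x s hs t
    · have h0' : (i : ℕ) ≠ 0 := fun h => h0 (Fin.ext h)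
      have hl' : (i : ℕ) ≠ m + 1 := fun h => hl (Fin.ext h)
      have hi := i.isLt
      have hpq : (⟨(i : ℕ) - 1, by omega⟩ : Fin (m + 1)) ≠ ⟨(i : ℕ), by omega⟩ := by
        intro h
        have := congrArg Fin.val h
        simp only at this
        omega
      refine sum_swap ho x _ _ hpq (fun s => ch X Γ
        (fun t => affPt X x s (stdSimplex.map i.succAbove t))) fun s hs => ?_
      congr 1
      funext t
      exact h55 m x s i _ _ rfl (by simp only; omega) t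

end ZC4

/-- ZC4: the fundamental cycle is a cycle -/
theorem prfZC4 (h1 : S_CU5) (h3 : S_ZC1) (h4 : S_ZC2) (h5 : S_ZC3) : S_ZC4 := by
  intro X hX hf Γ F hΓ m o ho
  unfold fundCycle
  have h6 : ∀ x ∈ F, ∑ s ∈ Fintype.piFinset (fun _ : Fin (m + 1) => nbr X x),
      (o x s : ℝ) • push (proj X Γ) (affChain X x s) =
      ∑ s ∈ Dom X (m + 1) x, (o x s : ℝ) • ZC4.ch X Γ (affPt X x s) := by
    intro x _
    rw [ZC4.sum_Dom ho x (fun s => (o x s : ℝ) • push (proj X Γ) (affChain X x s))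
      fun s hs => by rw [hs, Int.cast_zero, zero_smul]]
    exact Finset.sum_congr rfl fun s _ => by rw [ZC4.push_affChain]
  rw [Finset.sum_congr rfl h6, B5.bd_sum]
  simp_rw [B5.bd_sum]
  have h7 : ∀ x ∈ F, ∀ s ∈ Dom X (m + 1) x, bd ((o x s : ℝ) • ZC4.ch X Γ (affPt X x s)) =
      ∑ i : Fin (m + 2), ((-1 : ℝ) ^ (i : ℕ)) • ((o x s : ℝ) •
        ZC4.ch X Γ fun t => affPt X x s (stdSimplex.map i.succAbove t)) := by
    intro x _ s hs
    exact ZC4.bd_ch (continuous_affPt X x s) (ZC4.aff_mem h5 hX hf (ZC4.mem_Dom.1 hs).2) _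
  rw [Finset.sum_congr rfl fun x hx => Finset.sum_congr rfl fun s hs => h7 x hx s hs]
  have h8 : ∑ x ∈ F, ∑ s ∈ Dom X (m + 1) x, ∑ i : Fin (m + 2), ((-1 : ℝ) ^ (i : ℕ)) •
      ((o x s : ℝ) • ZC4.ch X Γ fun t => affPt X x s (stdSimplex.map i.succAbove t)) =
      ∑ i : Fin (m + 2), ((-1 : ℝ) ^ (i : ℕ)) • ∑ x ∈ F, ∑ s ∈ Dom X (m + 1) x,
      ((o x s : ℝ) • ZC4.ch X Γ fun t => affPt X x s (stdSimplex.map i.succAbove t)) := by
    rw [Finset.sum_congr rfl fun x _ => Finset.sum_comm]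
    rw [Finset.sum_comm]
    refine Finset.sum_congr rfl fun i _ => ?_
    rw [Finset.smul_sum]
    refine Finset.sum_congr rfl fun x _ => ?_
    rw [Finset.smul_sum]
  rw [h8]
  refine Finset.sum_eq_zero fun i _ => ?_
  rw [ZC4.sum_face h1 h3 h4 h5 hX hf hΓ ho i, smul_zero]

end MP8a95ee.Npc
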