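import Pool.Agent.Work.MP_8a95ee_gt.Npc.Stmts4
import Pool.Agent.Work.MP_8a95ee_gt.Npc.FU

/-!
# UFU: from functions at the representatives of the orbits to a compatible family
-/

set_option autoImplicit false

namespace MP8a95ee.Npc

open Classical

namespace UFU

/-- the family -/
noncomputable def fam (X : SimpleGraph ℕ) (Γ : Subgroup (Equiv.Perm ℕ)) (F : Finset ℕ) {k : ℕ}
    (f0 : ℕ → (Fin k → Finset ℕ) → ℝ) (z : ℕ) (T : Fin k → Finset ℕ) : ℝ :=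
  if h : ∃ p : ℕ × Equiv.Perm ℕ, p.1 ∈ F ∧ p.2 ∈ Γ ∧ p.2 p.1 = z then
    FU.val (link X h.choose.1) (f0 h.choose.1) h.choose.2 T else 0

theorem fam_eq {X : SimpleGraph ℕ} {Γ : Subgroup (Equiv.Perm ℕ)} {F : Finset ℕ} {k : ℕ}
    (hD : IsDeck X Γ F) (f0 : ℕ → (Fin k → Finset ℕ) → ℝ)
    (hfree : ∀ g ∈ Γ, ∀ x, g x = x → g = 1)
    (x : ℕ) (hx : x ∈ F) (g : Equiv.Perm ℕ) (hg : g ∈ Γ) (T : Fin k → Finset ℕ) :
    fam X Γ F f0 (g x) T = FU.val (link X x) (f0 x) g T := by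
  have h : ∃ p : ℕ × Equiv.Perm ℕ, p.1 ∈ F ∧ p.2 ∈ Γ ∧ p.2 p.1 = g x := ⟨(x, g), hx, hg, rfl⟩
  unfold fam
  rw [dif_pos h]
  have hs := h.choose_spec
  generalize h.choose = p at hs
  obtain ⟨y, g'⟩ := p
  obtain ⟨a1, a2, a3⟩ := hs
  simp only at a1 a2 a3
  have h1 : y = x := by
    refine (hD.rep (g x)).unique ⟨a1, g'⁻¹, Γ.inv_mem a2, ?_⟩ ⟨hx, g⁻¹, Γ.inv_mem hg, ?_⟩
    · rw [← a3]
      simp
    · simp
  subst h1
  have h2 : g' = g := by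
    have h3 : g⁻¹ * g' = 1 := by
      apply hfree _ (Γ.mul_mem (Γ.inv_mem hg) a2) y
      rw [Equiv.Perm.mul_apply, a3]
      simp
    rw [inv_mul_eq_one] at h3
    exact h3.symm
  rw [h2]

theorem ex_rep {X : SimpleGraph ℕ} {Γ : Subgroup (Equiv.Perm ℕ)} {F : Finset ℕ}
    (hD : IsDeck X Γ F) (z : ℕ) : ∃ x ∈ F, ∃ g ∈ Γ, g x = z := by
  obtain ⟨y, ⟨hy, g, hg, he⟩, -⟩ := hD.rep z
  refine ⟨y, hy, g⁻¹, Γ.inv_mem hg, ?_⟩
  rw [← he]
  simp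

end UFU

theorem prfUFU (h1 : S_CU5) (h2 : S_PT3) : S_UFU := by
  intro X hX hf Γ F hD m f0 C hC hf0 hb
  have hfree := (h2 X hX hf Γ F hD).2.1
  refine ⟨UFU.fam X Γ F f0, ?_, ?_, ?_, ?_⟩
  · intro g hg z T
    obtain ⟨x, hx, g', hg', rfl⟩ := UFU.ex_rep hD z
    rw [UFU.fam_eq hD f0 hfree x hx g' hg']
    have h3 : g (g' x) = (g * g') x := rfl
    rw [h3, UFU.fam_eq hD f0 hfree x hx (g * g') (Γ.mul_mem hg hg'), FU.val_image]
  · intro z T hT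
    obtain ⟨x, hx, g, hg, rfl⟩ := UFU.ex_rep hD z
    have haut : IsAut X (g⁻¹ : Equiv.Perm ℕ) := hD.auto g⁻¹ (Γ.inv_mem hg)
    have h4 := (h1 X hX hf g⁻¹ haut).2.2.2.1
    have h5 : ∀ s : Finset ℕ, s.image (g⁻¹ : Equiv.Perm ℕ) ∈ link X x ↔
        s ∈ link X (g x) := by
      intro s
      have h6 := h4 (g x) s
      have h7 : (g⁻¹ : Equiv.Perm ℕ) (g x) = x := by simp
      rw [h7] at h6
      exact h6
    have h6 := hf0 x hx _ (FU.KF_image g⁻¹ h5 T hT)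
    rw [← h6]
    unfold RA.dl
    refine Finset.sum_congr rfl fun i _ => ?_
    congr 1
    rw [UFU.fam_eq hD f0 hfree x hx g hg]
    unfold FU.val
    rw [if_pos]
    intro j
    exact (h5 _).2 (hT.1 _).1
  · intro z T
    obtain ⟨x, hx, g, hg, rfl⟩ := UFU.ex_rep hD z
    rw [UFU.fam_eq hD f0 hfree x hx g hg]
    unfold FU.val
    split_ifs with h3
    · exact hb x hx _ h3
    · rw [abs_zero]
      exact hC
  · intro x hx T hT
    have h3 := UFU.fam_eq hD f0 hfree x hx 1 Γ.one_mem T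
    have h4 : (1 : Equiv.Perm ℕ) x = x := rfl
    rw [h4] at h3
    rw [h3]
    have h5 : ∀ i, (T i).image ((1 : Equiv.Perm ℕ)⁻¹ : Equiv.Perm ℕ) = T i := by
      intro i
      rw [inv_one]
      exact Finset.image_id
    unfold FU.val
    simp only [h5]
    rw [if_pos hT]

end MP8a95ee.Npc
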