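import Pool.Agent.Work.MP_8a95ee_gt.Npc.Stmts4

/-!
# Nonpositively curved cubulations: item ULO (helper71)
-/

set_option autoImplicit false

namespace MP8a95ee.Npc

namespace ULO

open Classical

/-- relabelling -/
noncomputable def rel (σ : Equiv.Perm ℕ) (L : Finset (Finset ℕ)) : Finset (Finset ℕ) :=
  L.image fun s => s.image σ

/-- the alternating weight -/
noncomputable def kp (L : Finset (Finset ℕ)) : ℝ := ∑ s ∈ L, (-1 / 2 : ℝ) ^ s.card

theorem image_inj (σ : Equiv.Perm ℕ) : Function.Injective fun s : Finset ℕ => s.image σ :=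
  Finset.image_injective σ.injective

theorem kp_rel (σ : Equiv.Perm ℕ) (L : Finset (Finset ℕ)) : kp (rel σ L) = kp L := by
  unfold kp rel
  rw [Finset.sum_image fun a _ b _ h => image_inj σ h]
  refine Finset.sum_congr rfl fun s _ => ?_
  rw [Finset.card_image_of_injective _ σ.injective]

theorem rel_rel (σ τ : Equiv.Perm ℕ) (L : Finset (Finset ℕ)) :
    rel σ (rel τ L) = rel (σ * τ) L := by
  unfold rel
  rw [Finset.image_image]
  refine Finset.image_congr fun s _ => ?_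
  simp only [Function.comp_apply]
  rw [Finset.image_image]
  rfl

theorem rel_one (L : Finset (Finset ℕ)) : rel 1 L = L := by
  unfold rel
  have : (fun s : Finset ℕ => s.image (1 : Equiv.Perm ℕ)) = id := by
    funext s
    exact Finset.image_id
  rw [this, Finset.image_id]

theorem lc_mul {S : Type} (c : ℝ) (f : S → ℝ) (z : S →₀ ℝ) :
    Finsupp.linearCombination ℝ (fun T => c * f T) z = c * Finsupp.linearCombination ℝ f z := by
  rw [Finsupp.linearCombination_apply, Finsupp.linearCombination_apply, Finsupp.sum, Finsupp.sum,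
    Finset.mul_sum]
  refine Finset.sum_congr rfl fun s _ => ?_
  simp only [smul_eq_mul]
  ring

theorem dl_mul {S : Type} {k : ℕ} (c : ℝ) (f : (Fin k → S) → ℝ) (T : Fin (k + 1) → S) :
    RA.dl (fun T => c * f T) T = c * RA.dl f T := by
  unfold RA.dl
  rw [Finset.mul_sum]
  refine Finset.sum_congr rfl fun s _ => ?_
  simp only [smul_eq_mul]
  ring

theorem dl_map {S : Type} {k : ℕ} (φ : S → S) (f : (Fin k → S) → ℝ) (T : Fin (k + 1) → S) :
    RA.dl (fun T => f fun i => φ (T i)) T = RA.dl f fun i => φ (T i) := rfl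

/-- (a) and (b) -/
theorem one (h1 : S_P2) (h2 : S_DU) (h4 : S_UOR) (m : ℕ) (L : Finset (Finset ℕ)) (hF : FlagC L)
    (hS : RA.IsHSphere L (m + 1)) (o : (Fin (m + 1) → ℕ) → ℤ) (ho : IsOrient L (m + 1) o) :
    ∃ (f : (Fin (m + 1) → Finset ℕ) → ℝ) (C : ℝ), 0 ≤ C ∧
      (∀ T : Fin (m + 2) → Finset ℕ, KF L T → RA.dl f T = 0) ∧
      (∀ T : Fin (m + 1) → Finset ℕ, (∀ i, T i ∈ L) → |f T| ≤ C) ∧
      ∀ o' : (Fin (m + 1) → ℕ) → ℤ, IsOrient L (m + 1) o' →
        |kp L| ≤ |Finsupp.linearCombination ℝ f (RA.zeta L o')| := by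
  set M : ℝ := ∑ s ∈ Fintype.piFinset (fun _ : Fin (m + 1) => verts L), |(o s : ℝ)| with hM
  obtain ⟨f, hf1, hf2⟩ : ∃ f : (Fin (m + 1) → Finset ℕ) → ℝ,
      (∀ T : Fin (m + 2) → Finset ℕ, KF L T → RA.dl f T = 0) ∧
      Finsupp.linearCombination ℝ f (RA.zeta L o) = M * |kp L| := by
    by_cases hk : kp L = 0
    · refine ⟨fun T => 0 * (fun _ => (0 : ℝ)) T, fun T _ => ?_, ?_⟩
      · rw [dl_mul, zero_mul]
      · rw [lc_mul, hk, abs_zero, mul_zero, zero_mul]
    · have hb : ¬ RA.Bounds L o (KF L) := fun h => hk (h1 L hF m hS o ho h)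
      have hd := mt (h2 L m o (KF L)) hb
      push Not at hd
      obtain ⟨f, hf, hne⟩ := hd
      refine ⟨fun T => (M * |kp L| / Finsupp.linearCombination ℝ f (RA.zeta L o)) * f T,
        fun T hT => ?_, ?_⟩
      · rw [dl_mul, hf T hT, mul_zero]
      · rw [lc_mul, div_mul_cancel₀ _ hne]
  set C : ℝ := ∑ T ∈ Fintype.piFinset (fun _ : Fin (m + 1) => L), |f T| with hC
  refine ⟨f, C, Finset.sum_nonneg fun _ _ => abs_nonneg _, hf1, ?_, ?_⟩
  · intro T hT
    exact Finset.single_le_sum (f := fun T => |f T|) (fun _ _ => abs_nonneg _)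
      (Fintype.mem_piFinset.2 hT)
  · intro o' ho'
    obtain ⟨s0, hs0, hs0', he⟩ := h4 L hF m hS o o' ho ho'
    have h5 := congrArg (Finsupp.linearCombination ℝ f) he
    rw [map_smul, map_smul, hf2, smul_eq_mul, smul_eq_mul] at h5
    have h6 := congrArg abs h5
    rw [abs_mul, abs_mul, abs_mul, abs_abs] at h6
    have hMpos : |(o s0 : ℝ)| ≤ M := by
      refine Finset.single_le_sum (f := fun s => |(o s : ℝ)|) (fun _ _ => abs_nonneg _)
        (Fintype.mem_piFinset.2 fun i => ?_)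
      have h7 := ho.2.1 s0 hs0
      unfold verts
      rw [Finset.mem_biUnion]
      exact ⟨_, h7, Finset.mem_image_of_mem _ (Finset.mem_univ i)⟩
    have hpos : 0 < |(o s0 : ℝ)| := abs_pos.2 (by exact_mod_cast hs0)
    have hge : 1 ≤ |(o' s0 : ℝ)| := by
      have : 1 ≤ |o' s0| := Int.one_le_abs hs0'
      exact_mod_cast this
    have hMa : |M| = M := abs_of_nonneg (le_trans (abs_nonneg _) hMpos)
    rw [hMa] at h6
    have h8 : |(o s0 : ℝ)| * |kp L| ≤
        |(o s0 : ℝ)| * |Finsupp.linearCombination ℝ f (RA.zeta L o')| := by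
      rw [h6]
      have h9 : 0 ≤ |kp L| := abs_nonneg _
      calc |(o s0 : ℝ)| * |kp L| ≤ M * |kp L| := mul_le_mul_of_nonneg_right hMpos h9
        _ = 1 * (M * |kp L|) := (one_mul _).symm
        _ ≤ |(o' s0 : ℝ)| * (M * |kp L|) :=
          mul_le_mul_of_nonneg_right hge (mul_nonneg (le_trans hpos.le hMpos) h9)
    exact le_of_mul_le_mul_left h8 hpos

/-- a model of a finite complex -/
def Model (m : ℕ) (L' : Finset (Finset ℕ)) (L : Finset (Finset ℕ)) (σ : Equiv.Perm ℕ)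
    (o : (Fin (m + 1) → ℕ) → ℤ) : Prop :=
  FlagC L ∧ RA.IsHSphere L (m + 1) ∧ IsOrient L (m + 1) o ∧ rel σ L = L'

/-- the conclusion for one complex -/
def Good (m : ℕ) (C : ℝ) (L : Finset (Finset ℕ)) (o : (Fin (m + 1) → ℕ) → ℤ) : Prop :=
  ∃ f : (Fin (m + 1) → Finset ℕ) → ℝ,
    (∀ T : Fin (m + 2) → Finset ℕ, KF L T → RA.dl f T = 0) ∧
    (∀ T : Fin (m + 1) → Finset ℕ, (∀ i, T i ∈ L) → |f T| ≤ C) ∧
    |∑ s ∈ L, (-1 / 2 : ℝ) ^ s.card| ≤ Finsupp.linearCombination ℝ f (RA.zeta L o)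

theorem two (h1 : S_P2) (h2 : S_DU) (h3 : S_URE) (h4 : S_UOR) (m : ℕ) (L' : Finset (Finset ℕ)) :
    ∃ C : ℝ, 0 ≤ C ∧ ∀ L σ o, Model m L' L σ o → Good m C L o := by
  by_cases hex : ∃ L σ o, Model m L' L σ o
  · obtain ⟨L0, σ0, o0, hF0, hS0, ho0, hr0⟩ := hex
    obtain ⟨f0, C, hC, hf1, hf2, hf3⟩ := one h1 h2 h4 m L0 hF0 hS0 o0 ho0
    refine ⟨C, hC, ?_⟩
    rintro L σ o ⟨hF, hS, ho, hr⟩
    set ρ : Equiv.Perm ℕ := σ0⁻¹ * σ with hρ
    have hL : rel ρ L = L0 := by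
      rw [hρ, ← rel_rel, hr, ← hr0, rel_rel, inv_mul_cancel, rel_one]
    have hL' : rel ρ⁻¹ L0 = L := by
      rw [← hL, rel_rel, inv_mul_cancel, rel_one]
    set o1 : (Fin (m + 1) → ℕ) → ℤ := fun s => o fun i => ρ⁻¹ (s i) with ho1
    have ho1' : IsOrient L0 (m + 1) o1 := by
      refine (h3 L0 ρ⁻¹ m).2.1 o ?_
      change IsOrient (rel ρ⁻¹ L0) (m + 1) o
      rw [hL']
      exact ho
    have h5 := hf3 o1 ho1'
    have h6 := (h3 L ρ m).2.2 o1 f0
    change Finsupp.linearCombination ℝ f0 (RA.zeta (rel ρ L) o1) = _ at h6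
    rw [hL] at h6
    have h7 : (fun s : Fin (m + 1) → ℕ => o1 fun i => ρ (s i)) = o := by
      funext s
      simp [ho1]
    rw [h7] at h6
    have h8 : kp L0 = kp L := by rw [← hL, kp_rel]
    obtain ⟨ε, hε, hε'⟩ : ∃ ε : ℝ, |ε| = 1 ∧
        |Finsupp.linearCombination ℝ f0 (RA.zeta L0 o1)| =
          ε * Finsupp.linearCombination ℝ f0 (RA.zeta L0 o1) := by
      rcases le_total 0 (Finsupp.linearCombination ℝ f0 (RA.zeta L0 o1)) with h | h
      · exact ⟨1, by simp, by rw [abs_of_nonneg h, one_mul]⟩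
      · exact ⟨-1, by simp, by rw [abs_of_nonpos h]; ring⟩
    refine ⟨fun T => ε * (fun T : Fin (m + 1) → Finset ℕ => f0 fun i => (T i).image ρ) T,
      ?_, ?_, ?_⟩
    · intro T hT
      rw [dl_mul, dl_map (fun s : Finset ℕ => s.image ρ)]
      have h9 : KF (rel ρ L) (fun i => (T i).image ρ) := ((h3 L ρ m).1 T).2 hT
      rw [hL] at h9
      rw [hf1 _ h9, mul_zero]
    · intro T hT
      rw [abs_mul, hε, one_mul]
      refine hf2 _ fun i => ?_
      rw [← hL]
      exact Finset.mem_image_of_mem _ (hT i)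
    · rw [lc_mul, ← h6, ← hε']
      change |kp L| ≤ _
      rw [← h8]
      exact h5
  · refine ⟨0, le_rfl, fun L σ o h => (hex ⟨L, σ, o, h⟩).elim⟩

theorem perm_ex (V : Finset ℕ) (N : ℕ) (hV : V.card ≤ N) :
    ∃ σ : Equiv.Perm ℕ, V.image σ ⊆ Finset.range N := by
  have hc : Fintype.card {x // x ∈ V} = Fintype.card {x // x ∈ Finset.range V.card} := by
    simp
  have e1 : {x // x ∈ V} ≃ {x // x ∈ Finset.range V.card} := Fintype.equivOfCardEq hc
  have i1 : Infinite {x // x ∉ V} := V.finite_toSet.infinite_compl.to_subtype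
  have i2 : Infinite {x // x ∉ Finset.range V.card} :=
    (Finset.range V.card).finite_toSet.infinite_compl.to_subtype
  obtain ⟨e2⟩ : Nonempty ({x // x ∉ V} ≃ {x // x ∉ Finset.range V.card}) :=
    nonempty_equiv_of_countable
  refine ⟨Equiv.subtypeCongr e1 e2, ?_⟩
  intro y hy
  obtain ⟨x, hx, rfl⟩ := Finset.mem_image.1 hy
  have h1 : Equiv.subtypeCongr e1 e2 x = e1 ⟨x, hx⟩ := by
    simp only [Equiv.subtypeCongr, Equiv.trans_apply]
    rw [Equiv.sumCompl_symm_apply_of_pos hx]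
    rfl
  rw [h1]
  have h2 := Finset.mem_range.1 (e1 ⟨x, hx⟩).2
  exact Finset.mem_range.2 (lt_of_lt_of_le h2 hV)

end ULO

open ULO in
theorem prfULO (h1 : S_P2) (h2 : S_DU) (h3 : S_URE) (h4 : S_UOR) : S_ULO := by
  classical
  intro m N
  choose C hC hG using two h1 h2 h3 h4 m
  set 𝓛 : Finset (Finset (Finset ℕ)) := (Finset.range N).powerset.powerset with h𝓛
  refine ⟨∑ L' ∈ 𝓛, C L', Finset.sum_nonneg fun _ _ => hC _, ?_⟩
  intro L hF hN hS o ho
  obtain ⟨σ, hσ⟩ := perm_ex (verts L) N hN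
  have hmem : rel σ L ∈ 𝓛 := by
    rw [h𝓛, Finset.mem_powerset]
    intro t ht
    obtain ⟨s, hs, rfl⟩ := Finset.mem_image.1 ht
    rw [Finset.mem_powerset]
    refine (Finset.image_subset_image ?_).trans hσ
    intro x hx
    unfold verts
    rw [Finset.mem_biUnion]
    exact ⟨s, hs, hx⟩
  obtain ⟨f, hf1, hf2, hf3⟩ := hG (rel σ L) L σ o ⟨hF, hS, ho, rfl⟩
  refine ⟨f, hf1, fun T hT => (hf2 T hT).trans ?_, hf3⟩
  exact Finset.single_le_sum (f := C) (fun _ _ => hC _) hmem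

end MP8a95ee.Npc
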