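import Pool.Agent.Work.MP_8a95ee_gt.Bd.B11
import Pool.Agent.Work.MP_8a95ee_gt.Bd.B10
import Pool.Agent.Work.MP_8a95ee_gt.Npc.UFU
import Pool.Agent.Work.MP_8a95ee_gt.Npc.ULO

/-!
# The uniform inequality
-/

set_option autoImplicit false

namespace MP8a95ee.Npc

theorem allUBD : S_UBD := prfUBD allMG5 allRAM allHOM

theorem allUFU : S_UFU := prfUFU allCU5 allPT3

theorem allUCO : S_UCO := prfUCO

theorem allURE : S_URE := prfURE

theorem allUOR : S_UOR := prfUOR

theorem allULO : S_ULO := prfULO allP2 allDU allURE allUOR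

theorem allUMain : S_UMain := prfUMain allUBD allUFU allUCO allCO allTP3 allEV2 allEV3 allZC6 allULO

end MP8a95ee.Npc
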