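import Pool.Agent.Work.MP_8a95ee_gt.Sp.Aff
import Pool.Agent.Work.MP_8a95ee_gt.R.Stmts

/-!
# Nonpositively curved cubulations: definitions

A CAT(0) cube complex is given by its 1-skeleton, a median graph `X` with vertex set `ℕ`.
-/

set_option autoImplicit false

namespace MP8a95ee.Npc

/-- `X` is a median graph (the 1-skeleton of a CAT(0) cube complex): it is connected and every
three vertices have exactly one median, a vertex which is between any two of them. -/
structure IsMedianGraph (X : SimpleGraph ℕ) : Prop where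
  conn : X.Connected
  med : ∀ x y z : ℕ, ∃! m : ℕ, X.dist x m + X.dist m y = X.dist x y ∧
    X.dist y m + X.dist m z = X.dist y z ∧ X.dist x m + X.dist m z = X.dist x z

/-- Every vertex has finitely many neighbours. -/
def LocFin (X : SimpleGraph ℕ) : Prop := ∀ x, (X.neighborSet x).Finite

open Classical in
/-- The finite set of the neighbours of `x`. -/
noncomputable def nbr (X : SimpleGraph ℕ) (x : ℕ) : Finset ℕ :=
  if h : (X.neighborSet x).Finite then h.toFinset else ∅

/-- The edges from `x` to its neighbours `a` and `b` span a square. -/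
def Square (X : SimpleGraph ℕ) (x a b : ℕ) : Prop := ∃ y, y ≠ x ∧ X.Adj a y ∧ X.Adj b y

open Classical in
/-- The link of `x`: its vertices are the neighbours of `x`, its faces are the sets `s` of
neighbours which pairwise span squares with `x` (these are the directions of the cubes of the
CAT(0) cube complex with corner `x`). -/
noncomputable def link (X : SimpleGraph ℕ) (x : ℕ) : Finset (Finset ℕ) :=
  (nbr X x).powerset.filter fun s => ∀ a ∈ s, ∀ b ∈ s, a ≠ b → Square X x a b

open Classical in
/-- The corner opposite to `x` of the cube with corner `x` and directions `s`: the vertex at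
distance `|s|` from `x` for which all elements of `s` are between it and `x`. -/
noncomputable def corner (X : SimpleGraph ℕ) (x : ℕ) (s : Finset ℕ) : ℕ :=
  if h : ∃ y, X.dist x y = s.card ∧ ∀ a ∈ s, X.dist a y + 1 = X.dist x y then h.choose else x

open Classical in
/-- The point with coordinates `q` of the cube with corner `x` and directions `s`: the standard
cube `[0, 1] ^ s` is mapped to `ℝ ^ ℕ` by the map which is affine in each coordinate and which maps
the corner `T ⊆ s` of `[0, 1] ^ s` to the standard basis vector of the vertex `corner X x T`. -/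
noncomputable def cubePt (X : SimpleGraph ℕ) (x : ℕ) (s : Finset ℕ) (q : ℕ → ℝ) : ℕ → ℝ := fun y =>
  ∑ T ∈ s.powerset.filter (fun T => corner X x T = y), (∏ a ∈ T, q a) * ∏ a ∈ s \ T, (1 - q a)

/-- The topological space of the cube complex, a subspace of `ℝ ^ ℕ` with the product topology. -/
def space (X : SimpleGraph ℕ) : Set (ℕ → ℝ) :=
  {u | ∃ (x : ℕ) (s : Finset ℕ) (q : ℕ → ℝ), s ∈ link X x ∧ (∀ a, 0 ≤ q a ∧ q a ≤ 1) ∧
    u = cubePt X x s q}

/-- `Γ` is a group of automorphisms of `X` which acts freely on the space of the cube complex, and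
`F` contains exactly one vertex of every `Γ`-orbit of vertices. -/
structure IsDeck (X : SimpleGraph ℕ) (Γ : Subgroup (Equiv.Perm ℕ)) (F : Finset ℕ) : Prop where
  auto : ∀ g ∈ Γ, ∀ x y, X.Adj (g x) (g y) ↔ X.Adj x y
  free : ∀ g ∈ Γ, ∀ u ∈ space X, (∀ y, u (g y) = u y) → g = 1
  rep : ∀ x, ∃! y, y ∈ F ∧ ∃ g ∈ Γ, g x = y

/-- Two points of the space are equivalent if an element of `Γ` maps one to the other. -/
def orb (X : SimpleGraph ℕ) (Γ : Subgroup (Equiv.Perm ℕ)) : Setoid (space X) where
  r u v := ∃ g ∈ Γ, ∀ y, (v : ℕ → ℝ) (g y) = (u : ℕ → ℝ) y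
  iseqv :=
    { refl := fun _ => ⟨1, Γ.one_mem, fun _ => rfl⟩
      symm := fun {u v} ⟨g, hg, h⟩ => ⟨g⁻¹, Γ.inv_mem hg, fun y => by
        rw [← h (g⁻¹ y)]
        simp⟩
      trans := fun {u v w} ⟨g, hg, h⟩ ⟨g', hg', h'⟩ => ⟨g' * g, Γ.mul_mem hg' hg, fun y => by
        rw [Equiv.Perm.mul_apply, h', h]⟩ }

/-- The quotient of the space of the cube complex by `Γ`, with the quotient topology. -/
abbrev Mfd (X : SimpleGraph ℕ) (Γ : Subgroup (Equiv.Perm ℕ)) : Type := Quotient (orb X Γ)

/-- The projection to the quotient. -/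
def proj (X : SimpleGraph ℕ) (Γ : Subgroup (Equiv.Perm ℕ)) : C(space X, Mfd X Γ) :=
  ⟨Quotient.mk (orb X Γ), continuous_quotient_mk'⟩

/-- An orientation: for every vertex `x` an integral cycle `o x` of top dimension of the link of
`x`, written as an alternating function (`alt`) on ordered tuples of neighbours of `x` which
vanishes unless the entries form a face (`supp`), does not vanish on the faces (`full`) and has
boundary zero (`cycle`), such that the orientations of a cube given by two adjacent corners are
opposite as orientations of the tangent cone (`flip`; the tuple on the left consists of the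
neighbours of `s i` in the cube, in the corresponding order), invariant under `Γ` (`inv`). -/
structure Oriented (X : SimpleGraph ℕ) (Γ : Subgroup (Equiv.Perm ℕ)) (n : ℕ)
    (o : ℕ → (Fin n → ℕ) → ℤ) : Prop where
  alt : ∀ x s i j, i ≠ j → o x (s ∘ Equiv.swap i j) = - o x s
  supp : ∀ x s, o x s ≠ 0 → Finset.univ.image s ∈ link X x
  full : ∀ x s, Function.Injective s → Finset.univ.image s ∈ link X x → o x s ≠ 0
  cycle : ∀ x s i, ∑ a ∈ nbr X x, o x (Function.update s i a) = 0
  flip : ∀ x s i, Function.Injective s → Finset.univ.image s ∈ link X x →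
    o (s i) (fun j => if j = i then x else corner X x {s i, s j}) = - o x s
  inv : ∀ g ∈ Γ, ∀ x s, o (g x) (fun i => g (s i)) = o x s

/-- The point with coordinates `t` of the affine simplex in the cube with corner `x` which goes
from the corner `x` along the directions `s 0, s 1, ...`. -/
noncomputable def affPt (X : SimpleGraph ℕ) {n : ℕ} (x : ℕ) (s : Fin n → ℕ)
    (t : stdSimplex ℝ (Fin (n + 1))) : ℕ → ℝ :=
  cubePt X x (Finset.univ.image s) (Sp.qaff s t)

theorem continuous_affPt (X : SimpleGraph ℕ) {n : ℕ} (x : ℕ) (s : Fin n → ℕ) :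
    Continuous (affPt X x s) := by
  refine continuous_pi fun y => ?_
  unfold affPt cubePt
  refine continuous_finsetSum _ fun T _ => ?_
  refine Continuous.mul ?_ ?_
  · exact continuous_finsetProd _ fun a _ => Sp.continuous_qaff s a
  · exact continuous_finsetProd _ fun a _ => continuous_const.sub (Sp.continuous_qaff s a)

open Classical in
/-- The affine simplex as a singular chain (zero if it is not contained in the space). -/
noncomputable def affChain (X : SimpleGraph ℕ) {n : ℕ} (x : ℕ) (s : Fin n → ℕ) :
    SChain (space X) n :=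
  if h : ∀ t, affPt X x s t ∈ space X then
    Finsupp.single ⟨fun t => ⟨affPt X x s t, h t⟩, (continuous_affPt X x s).subtype_mk _⟩ 1
  else 0

/-- The fundamental cycle of the quotient: the sum over the representatives `x` of the orbits of
vertices and all ordered tuples `s` of neighbours of `x` of `o x s` times the image of the affine
simplex which goes from the corner `x` along the directions `s 0, s 1, ...`; every cube is
triangulated from each of its `2 ^ n` corners, so this is `2 ^ n` times the fundamental class. -/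
noncomputable def fundCycle (X : SimpleGraph ℕ) (Γ : Subgroup (Equiv.Perm ℕ)) (F : Finset ℕ)
    {n : ℕ} (o : ℕ → (Fin n → ℕ) → ℤ) : SChain (Mfd X Γ) n :=
  ∑ x ∈ F, ∑ s ∈ Fintype.piFinset (fun _ : Fin n => nbr X x),
    (o x s : ℝ) • push (proj X Γ) (affChain X x s)

/-- The vertices of the cube with corner `x` and directions `s`. -/
noncomputable def cubeSet (X : SimpleGraph ℕ) (x : ℕ) (s : Finset ℕ) : Finset ℕ :=
  s.powerset.image (corner X x)

/-- Two finite sets of vertices are equivalent if an element of `Γ` maps one to the other. -/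
def orbS (Γ : Subgroup (Equiv.Perm ℕ)) : Setoid (Finset ℕ) where
  r A B := ∃ g ∈ Γ, B = A.image g
  iseqv :=
    { refl := fun A => ⟨1, Γ.one_mem, by
        ext a
        simp⟩
      symm := fun {A B} ⟨g, hg, h⟩ => ⟨g⁻¹, Γ.inv_mem hg, by
        rw [h, Finset.image_image]
        ext a
        simp⟩
      trans := fun {A B C} ⟨g, hg, h⟩ ⟨g', hg', h'⟩ => ⟨g' * g, Γ.mul_mem hg' hg, by
        rw [h', h, Finset.image_image]
        rfl⟩ }

open Classical in
/-- The Euler characteristic of the quotient: the alternating sum of the numbers of orbits of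
cubes of each dimension. -/
noncomputable def eulerChar (X : SimpleGraph ℕ) (Γ : Subgroup (Equiv.Perm ℕ)) (F : Finset ℕ) : ℤ :=
  ∑ c ∈ (F.sigma fun x => link X x).image (fun p => (p.2.card,
    (Quotient.mk (orbS Γ) (cubeSet X p.1 p.2) : Quotient (orbS Γ)))), (-1 : ℤ) ^ c.1

/-- The main theorem. -/
def S_Main : Prop :=
  ∀ (X : SimpleGraph ℕ) (_ : IsMedianGraph X) (_ : LocFin X) (m : ℕ)
    (_ : ∀ x, RA.IsHSphere (link X x) (m + 1))
    (Γ : Subgroup (Equiv.Perm ℕ)) (F : Finset ℕ) (_ : IsDeck X Γ F)
    (o : ℕ → (Fin (m + 1) → ℕ) → ℤ) (_ : Oriented X Γ (m + 1) o),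
    bd (fundCycle X Γ F o) = 0 ∧
    (eulerChar X Γ F : ℚ) = ∑ x ∈ F, ∑ s ∈ link X x, (-1 / 2 : ℚ) ^ s.card ∧
    ((∀ ε : ℝ, 0 < ε → ∃ b : SChain (Mfd X Γ) (m + 2), l1 (fundCycle X Γ F o + bd b) < ε) →
      (∀ x, ∑ s ∈ link X x, (-1 / 2 : ℚ) ^ s.card = 0) ∧ eulerChar X Γ F = 0) ∧
    ((eulerChar X Γ F ≠ 0 ∨ ∃ x, ∑ s ∈ link X x, (-1 / 2 : ℚ) ^ s.card ≠ 0) →
      ∃ c : ℝ, 0 < c ∧ ∀ (Y : Type) [TopologicalSpace Y] (f : C(Y, Mfd X Γ)) (lam : ℝ)
        (z : SChain Y (m + 1)) (w : SChain (Mfd X Γ) (m + 2)),
        push f z = lam • fundCycle X Γ F o + bd w → c * |lam| ≤ l1 z)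

end MP8a95ee.Npc
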