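import Pool.Agent.Work.MP_8a95ee_gt.Npc.Defs

/-!
# Walls of a median graph
-/

set_option autoImplicit false

namespace MP8a95ee.Npc

open Classical

theorem mem_nbr {X : SimpleGraph ℕ} (hf : LocFin X) {x a : ℕ} : a ∈ nbr X x ↔ X.Adj x a := by
  unfold nbr
  rw [dif_pos (hf x), Set.Finite.mem_toFinset, SimpleGraph.mem_neighborSet]

theorem mem_link {X : SimpleGraph ℕ} {x : ℕ} {s : Finset ℕ} :
    s ∈ link X x ↔ s ⊆ nbr X x ∧ ∀ a ∈ s, ∀ b ∈ s, a ≠ b → Square X x a b := by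
  unfold link
  rw [Finset.mem_filter, Finset.mem_powerset]

theorem link_mono {X : SimpleGraph ℕ} {x : ℕ} {s t : Finset ℕ} (h : s ∈ link X x) (hts : t ⊆ s) :
    t ∈ link X x := by
  rw [mem_link] at h ⊢
  exact ⟨hts.trans h.1, fun a ha b hb => h.2 a (hts ha) b (hts hb)⟩

theorem empty_mem_link (X : SimpleGraph ℕ) (x : ℕ) : ∅ ∈ link X x := by
  rw [mem_link]
  exact ⟨Finset.empty_subset _, fun a ha => absurd ha (Finset.notMem_empty a)⟩

/-- the neighbours of `x` which are closer to `v` -/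
noncomputable def In (X : SimpleGraph ℕ) (x v : ℕ) : Finset ℕ :=
  (nbr X x).filter fun a => X.dist a v < X.dist x v

theorem mem_In {X : SimpleGraph ℕ} (hf : LocFin X) {x v a : ℕ} :
    a ∈ In X x v ↔ X.Adj x a ∧ X.dist a v < X.dist x v := by
  unfold In
  rw [Finset.mem_filter, mem_nbr hf]

/-- The walls of a median graph: every wall has two sides (`side h` and its complement);
`wall x a` is the only wall between the adjacent vertices `x` and `a`; the distance is the number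
of separating walls; sides satisfy the Helly property. -/
structure WS (X : SimpleGraph ℕ) where
  H : Type
  side : H → Set ℕ
  wall : ℕ → ℕ → H
  step : ∀ x a, X.Adj x a → ∀ h, ¬ (x ∈ side h ↔ a ∈ side h) ↔ h = wall x a
  fin : ∀ x y, {h | ¬ (x ∈ side h ↔ y ∈ side h)}.Finite
  dist : ∀ x y, X.dist x y = {h | ¬ (x ∈ side h ↔ y ∈ side h)}.ncard
  helly : ∀ S : Finset (Set ℕ), (∀ A ∈ S, ∃ h, A = side h ∨ A = (side h)ᶜ) →
    (∀ A ∈ S, ∀ B ∈ S, (A ∩ B).Nonempty) → ∃ z, ∀ A ∈ S, z ∈ A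

namespace WS

variable {X : SimpleGraph ℕ} (D : WS X)

/-- `h` separates `x` and `y` -/
def Sep (h : D.H) (x y : ℕ) : Prop := ¬ (x ∈ D.side h ↔ y ∈ D.side h)

/-- the finite set of walls that separate `x` and `y` -/
noncomputable def sep (x y : ℕ) : Finset D.H := (D.fin x y).toFinset

theorem mem_sep {x y : ℕ} {h : D.H} : h ∈ D.sep x y ↔ D.Sep h x y := by
  unfold sep Sep
  rw [Set.Finite.mem_toFinset]
  rfl

theorem dist_eq (x y : ℕ) : X.dist x y = (D.sep x y).card := by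
  rw [D.dist x y, Set.ncard_eq_toFinset_card _ (D.fin x y)]
  rfl

theorem Sep_comm {h : D.H} {x y : ℕ} : D.Sep h x y ↔ D.Sep h y x := by
  unfold Sep
  tauto

theorem Sep_self {h : D.H} {x : ℕ} : ¬ D.Sep h x x := by
  unfold Sep
  tauto

/-- separation is additive modulo 2 -/
theorem Sep_trans {h : D.H} {x y z : ℕ} : D.Sep h x z ↔ ¬ (D.Sep h x y ↔ D.Sep h y z) := by
  unfold Sep
  tauto

theorem Sep_step {x a : ℕ} (hxa : X.Adj x a) {h : D.H} : D.Sep h x a ↔ h = D.wall x a :=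
  D.step x a hxa h

theorem wall_comm {x a : ℕ} (hxa : X.Adj x a) : D.wall x a = D.wall a x := by
  have h1 : D.Sep (D.wall x a) x a := (D.Sep_step hxa).2 rfl
  exact (D.Sep_step hxa.symm).1 (D.Sep_comm.1 h1)

/-- the four intersections of the sides of two walls are not empty -/
def Cross (h h' : D.H) : Prop :=
  (∃ z, z ∈ D.side h ∧ z ∈ D.side h') ∧ (∃ z, z ∈ D.side h ∧ z ∉ D.side h') ∧
    (∃ z, z ∉ D.side h ∧ z ∈ D.side h') ∧ ∃ z, z ∉ D.side h ∧ z ∉ D.side h'

/-- crossing in terms of separation from a vertex `x` -/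
theorem Cross_iff {h h' : D.H} (x : ℕ) : D.Cross h h' ↔
    (∃ z, ¬ D.Sep h x z ∧ ¬ D.Sep h' x z) ∧ (∃ z, ¬ D.Sep h x z ∧ D.Sep h' x z) ∧
    (∃ z, D.Sep h x z ∧ ¬ D.Sep h' x z) ∧ ∃ z, D.Sep h x z ∧ D.Sep h' x z := by
  unfold Cross Sep
  by_cases h1 : x ∈ D.side h <;> by_cases h2 : x ∈ D.side h' <;>
    simp only [h1, h2, true_iff, false_iff, not_not] <;> tauto

end WS

end MP8a95ee.Npc
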